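import Pool.Agent.Lib_helper83.SRC.ZOne
import Pool.Agent.Lib_helper13.GC6.CaseIIIBH
import Pool.Agent.Lib_helper36.SRC.StarLemma

set_option autoImplicit false

/-! # `StatZH` for one honest star -/

namespace Pool.Agent.Lib_helper83.SRC

open Finset PowerSeries Pool.Agent.Lib_helper36.SRC Pool.Agent.Lib_helper36.SRC.RT
  Pool.Agent.Lib_helper79.SRC Pool.Agent.Lib_helper13.GC6

lemma prodC_replicate (l : ℕ) : prodC (List.replicate l (1 / 2)) = kap ^ l := by
  unfold prodC kap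
  rw [List.map_replicate, List.prod_replicate]

/-- `r = 2^(-(k+2)) ≥ 2 u`, `u = 2^(-n)`: the dichotomy for `β = r/2 - u` -/
lemma beta_dich {n : ℕ} {u r : ℝ} (hu : u = (1 / 2) ^ n) (hr : ∃ k : ℕ, r = (1 / 2) ^ (k + 2))
    (hur : 2 * u ≤ r) : (r / 2 - u = 0 ∨ u ≤ r / 2 - u) ∧ u + (r / 2 - u) ≤ 1 / 8 := by
  obtain ⟨k, hk⟩ := hr
  constructor
  · rcases lt_trichotomy (k + 3) n with h | h | h
    · right
      obtain ⟨j, rfl⟩ : ∃ j, n = k + 4 + j := ⟨n - (k + 4), by omega⟩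
      have h1 : (1 / 2 : ℝ) ^ (k + 4 + j) ≤ (1 / 2) ^ (k + 4) :=
        pow_le_pow_of_le_one (by norm_num) (by norm_num) (by omega)
      have h2 : r / 2 = 2 * (1 / 2) ^ (k + 4) := by rw [hk]; ring
      rw [h2, hu]; linarith
    · left
      rw [hu, hk, ← h]; ring
    · exfalso
      have h1 : (1 / 2 : ℝ) ^ (k + 2) ≤ (1 / 2) ^ n :=
        pow_le_pow_of_le_one (by norm_num) (by norm_num) (by omega)
      have h3 : (0 : ℝ) < (1 / 2) ^ n := by positivity
      rw [hu, hk] at hur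
      linarith
  · have h1 : (1 / 2 : ℝ) ^ (k + 2) ≤ (1 / 2) ^ 2 :=
      pow_le_pow_of_le_one (by norm_num) (by norm_num) (by omega)
    rw [hk]; norm_num at h1 ⊢; linarith

theorem statZH_one (h l : ℕ) (u r : ℝ) (hl : h + 2 ≤ l) (hu : u = (1 / 2) ^ (h + 2))
    (hr : ∃ k : ℕ, r = (1 / 2) ^ (k + 2)) (hur : 2 * u ≤ r) :
    InW (HM [l] + u - r) (ZH u r [l]) := by
  obtain ⟨hβ, hb⟩ := beta_dich hu hr hur
  have hlen : (List.replicate l (1 / 2 : ℝ)).length = l := List.length_replicate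
  have has : ∀ s ∈ List.replicate l (1 / 2 : ℝ), 0 ≤ s ∧ s ≤ 1 / 2 := by
    intro s hs
    rw [List.eq_of_mem_replicate hs]; norm_num
  have hp0 : (0 : ℝ) ≤ (1 / 2) ^ (l + 1) := by positivity
  have hpt : 2 * (1 / 2 : ℝ) ^ (l + 1) ≤ u := by
    rw [hu, pow_succ]
    have : (1 / 2 : ℝ) ^ l ≤ (1 / 2) ^ (h + 2) :=
      pow_le_pow_of_le_one (by norm_num) (by norm_num) hl
    linarith
  have SB := star_lemma (List.replicate l (1 / 2)) ((1 / 2) ^ l) has (by positivity) (by rw [hlen])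
  have key := Z1_one (List.replicate l (1 / 2)) has ((1 / 2) ^ (l + 1)) u (r / 2 - u) hp0 hpt hβ hb
    (by rw [hlen, pow_succ]; linarith) (by rw [hlen]; exact SB)
  refine key.congr ?_ ?_
  · rw [List.sum_replicate]
    unfold HM
    simp
    ring
  · unfold Z1 ZH HD HN
    rw [prodC_replicate]
    simp only [List.map_cons, List.map_nil, List.prod_cons, List.prod_nil, mul_one]
    simp only [map_sub, map_add, map_mul, map_neg, map_ofNat, map_one]
    have hh : (C (3 / 2) : ℝ⟦X⟧) * C r = 3 * C (r / 2) := by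
      rw [← map_mul, ← map_ofNat C 3, ← map_mul]; congr 1; ring
    linear_combination (kap ^ l * (X - 1)) * hh

end Pool.Agent.Lib_helper83.SRC
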