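import Pool.Agent.Lib_helper36.SRC.Coef
import Pool.Agent.Lib_helper79.SRC.Small

set_option autoImplicit false

/-! # Lower bounds for the coefficients of products of coins

`eg F n = n! [z^n] F`; `GG L = ∏ 2 kc s` over the leaves `s ∈ L`, `0 ≤ s ≤ 1/2`.
Main results: `eg (GG L) n ≥ (∑ s)^n` for `n ≥ 2` (`c2`), and
`eg (GG L) n ≥ eg (GG L) 0 * (∑ s^2) * (n - 1/2)^(n-2)` (`c3`). -/

namespace Pool.Agent.Lib_helper83.SRC

open Finset PowerSeries Pool.Agent.Lib_helper36.SRC Pool.Agent.Lib_helper36.SRC.RT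
  Pool.Agent.Lib_helper79.SRC

/-- exponential coefficients -/
noncomputable def eg (F : ℝ⟦X⟧) (n : ℕ) : ℝ := n.factorial * coeff n F

lemma eg_mul (F G : ℝ⟦X⟧) (n : ℕ) :
    eg (F * G) n = ∑ k ∈ range (n + 1), (n.choose k : ℝ) * (eg F k * eg G (n - k)) := by
  unfold eg
  rw [coeff_mul, Finset.Nat.sum_antidiagonal_eq_sum_range_succ_mk, mul_sum]
  apply sum_congr rfl
  intro k hk
  have hk' : k ≤ n := Nat.lt_succ_iff.1 (mem_range.1 hk)
  have h := Nat.choose_mul_factorial_mul_factorial hk'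
  have h' : ((n.choose k : ℕ) : ℝ) * (k.factorial : ℝ) * ((n - k).factorial : ℝ) = (n.factorial : ℝ) := by
    exact_mod_cast h
  rw [← h']
  ring

lemma eg_nonneg {F : ℝ⟦X⟧} (h : NN F) (n : ℕ) : 0 ≤ eg F n := by
  unfold eg; exact mul_nonneg (by positivity) (h n)

lemma eg_add (F G : ℝ⟦X⟧) (n : ℕ) : eg (F + G) n = eg F n + eg G n := by
  unfold eg; rw [map_add]; ring

lemma eg_smul (c : ℝ) (F : ℝ⟦X⟧) (n : ℕ) : eg (C c * F) n = c * eg F n := by
  unfold eg; rw [coeff_C_mul]; ring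

lemma NN_of_eg {F : ℝ⟦X⟧} (h : ∀ n, 0 ≤ eg F n) : NN F := by
  intro n
  have h1 := h n
  unfold eg at h1
  have h2 : (0 : ℝ) < (n.factorial : ℝ) := by exact_mod_cast n.factorial_pos
  exact nonneg_of_mul_nonneg_right h1 h2

/-- `2 kc s` -/
noncomputable def psi (s : ℝ) : ℝ⟦X⟧ := C 2 * kc s

lemma eg_psi_zero (s : ℝ) : eg (psi s) 0 = 2 * (1 - s) := by
  unfold psi; rw [eg_smul]; unfold eg; rw [coeff_kc_zero]; simp

lemma eg_psi_one (s : ℝ) : eg (psi s) 1 = 2 * s ^ 2 := by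
  unfold psi; rw [eg_smul]; unfold eg; rw [coeff_kc_one]; simp

lemma eg_psi (s : ℝ) (n : ℕ) : eg (psi s) (n + 2) = 2 * (1 - s) * s ^ 2 * ((n : ℝ) + 2 - s) ^ n := by
  unfold psi; rw [eg_smul]; unfold eg; rw [coeff_kc]
  have f : (((n + 2).factorial : ℕ) : ℝ) ≠ 0 := by exact_mod_cast (n + 2).factorial_ne_zero
  field_simp

lemma NN_psi {s : ℝ} (hs : s ≤ 1 / 2) : NN (psi s) := (NN.kc (by linarith)).smul (by norm_num)

/-- `∏ 2 kc s` -/
noncomputable def GG : List ℝ → ℝ⟦X⟧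
  | [] => 1
  | s :: L => psi s * GG L

lemma NN_GG (L : List ℝ) (h : ∀ s ∈ L, 0 ≤ s ∧ s ≤ 1 / 2) : NN (GG L) := by
  induction L with
  | nil => rw [GG]; exact NN.one
  | cons s L ih =>
    rw [GG]
    exact (NN_psi (h s (by simp)).2).mul (ih (fun t ht => h t (by simp [ht])))

lemma S_GG (L : List ℝ) : C ((1 / 2 : ℝ) ^ L.length) * S (GG L) = prodC L * Ex (-L.sum) := by
  induction L with
  | nil => rw [GG, prodC_nil]; simp [Ex_zero]
  | cons s L ih =>
    rw [GG, prodC_cons, List.length_cons, List.sum_cons, neg_add, Ex_add, pow_succ, map_mul,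
      map_mul]
    unfold psi
    rw [map_mul, S_C, S_kc]
    have h2 : (C (1 / 2 : ℝ) : ℝ⟦X⟧) * C 2 = 1 := by rw [← map_mul]; norm_num
    linear_combination (C (1 / 2 : ℝ) * C 2 * ((1 + C s * (X - 1)) * Ex (-s))) * ih
      + ((1 + C s * (X - 1)) * Ex (-s) * (prodC L * Ex (-L.sum))) * h2

lemma pow_shift (n : ℕ) {x c : ℝ} (hx : 0 ≤ x) (hc : x ≤ c) : x ^ n ≤ c ^ n :=
  pow_le_pow_left₀ hx hc n

/-- `ψ_n ≥ s^n` for `n ≥ 2` -/
lemma eg_psi_ge {s : ℝ} (h0 : 0 ≤ s) (h1 : s ≤ 1 / 2) (n : ℕ) (hn : 2 ≤ n) : s ^ n ≤ eg (psi s) n := by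
  obtain ⟨m, rfl⟩ : ∃ m, n = m + 2 := ⟨n - 2, by omega⟩
  rw [eg_psi]
  have hm : (0 : ℝ) ≤ m := Nat.cast_nonneg m
  have h2 : s ^ m ≤ ((m : ℝ) + 2 - s) ^ m := pow_shift m h0 (by linarith)
  have h3 : 0 ≤ s ^ m := by positivity
  have h4 : s ^ (m + 2) = s ^ 2 * s ^ m := by ring
  rw [h4]
  have h5 : 0 ≤ s ^ 2 := sq_nonneg s
  calc s ^ 2 * s ^ m ≤ s ^ 2 * ((m : ℝ) + 2 - s) ^ m := mul_le_mul_of_nonneg_left h2 h5
    _ = 1 * (s ^ 2 * ((m : ℝ) + 2 - s) ^ m) := by ring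
    _ ≤ (2 * (1 - s)) * (s ^ 2 * ((m : ℝ) + 2 - s) ^ m) := by
        apply mul_le_mul_of_nonneg_right (by linarith)
        exact mul_nonneg h5 (h3.trans h2)
    _ = _ := by ring

/-- `ψ_(n+1) ≥ ((n+1)/2) ψ_n` for `n ≥ 3` -/
lemma eg_psi_ratio {s : ℝ} (h1 : s ≤ 1 / 2) (m : ℕ) :
    ((m : ℝ) + 4) / 2 * eg (psi s) (m + 3) ≤ eg (psi s) (m + 4) := by
  rw [show m + 3 = (m + 1) + 2 by ring, show m + 4 = (m + 2) + 2 by ring, eg_psi, eg_psi]
  push_cast
  have hm : (0 : ℝ) ≤ m := Nat.cast_nonneg m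
  have e1 : ((m : ℝ) + 1 + 2 - s) = m + 3 - s := by ring
  have e2 : ((m : ℝ) + 2 + 2 - s) = m + 4 - s := by ring
  rw [e1, e2]
  have h2 : ((m : ℝ) + 3 - s) ^ (m + 1) ≤ ((m : ℝ) + 4 - s) ^ (m + 1) :=
    pow_shift _ (by linarith) (by linarith)
  have h3 : 0 ≤ ((m : ℝ) + 3 - s) ^ (m + 1) := pow_nonneg (by linarith) _
  have h4 : 0 ≤ 2 * (1 - s) * s ^ 2 := mul_nonneg (by linarith) (sq_nonneg s)
  have h5 : ((m : ℝ) + 4) / 2 * ((m : ℝ) + 3 - s) ^ (m + 1) ≤ ((m : ℝ) + 4 - s) ^ (m + 2) := by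
    rw [pow_succ ((m : ℝ) + 4 - s) (m + 1), mul_comm (((m : ℝ) + 4 - s) ^ (m + 1))]
    exact mul_le_mul (by linarith) h2 h3 (by linarith)
  calc ((m : ℝ) + 4) / 2 * (2 * (1 - s) * s ^ 2 * ((m : ℝ) + 3 - s) ^ (m + 1))
      = 2 * (1 - s) * s ^ 2 * (((m : ℝ) + 4) / 2 * ((m : ℝ) + 3 - s) ^ (m + 1)) := by ring
    _ ≤ 2 * (1 - s) * s ^ 2 * ((m : ℝ) + 4 - s) ^ (m + 2) := mul_le_mul_of_nonneg_left h5 h4

/-- **(C2)** -/
theorem c2 (L : List ℝ) (h : ∀ s ∈ L, 0 ≤ s ∧ s ≤ 1 / 2) :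
    1 ≤ eg (GG L) 0 ∧ L.sum + 1 / 2 ≤ eg (GG L) 1 + eg (GG L) 0 / 2 ∧
    (∀ x : ℝ, (L.sum - x) ^ 2 ≤ eg (GG L) 2 - 2 * x * eg (GG L) 1 + x ^ 2 * eg (GG L) 0) ∧
    (∀ n, 2 ≤ n → L.sum ^ n ≤ eg (GG L) n) := by
  induction L with
  | nil =>
    have e : ∀ n, eg (GG []) n = if n = 0 then 1 else 0 := by
      intro n
      rw [GG]; unfold eg
      rw [coeff_one]
      split_ifs with h
      · subst h; simp
      · simp
    refine ⟨by rw [e]; simp, by rw [e, e]; norm_num, fun x => by rw [e, e, e]; norm_num, ?_⟩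
    intro n hn
    rw [e, if_neg (by omega), List.sum_nil, zero_pow (by omega)]
  | cons s L ih =>
    obtain ⟨a0, a1, a2, a3⟩ := ih (fun t ht => h t (by simp [ht]))
    obtain ⟨hs0, hs1⟩ := h s (by simp)
    have hS0 : 0 ≤ L.sum := List.sum_nonneg (fun t ht => (h t (by simp [ht])).1)
    set Sg := L.sum with hSg
    set g := eg (GG L) with hg
    have gn : ∀ n, 0 ≤ g n := fun n => eg_nonneg (NN_GG L (fun t ht => h t (by simp [ht]))) n
    have G0 : eg (GG (s :: L)) 0 = 2 * (1 - s) * g 0 := by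
      rw [GG, eg_mul]
      simp [eg_psi_zero, ← hg]
    have G1 : eg (GG (s :: L)) 1 = 2 * (1 - s) * g 1 + 2 * s ^ 2 * g 0 := by
      rw [GG, eg_mul, sum_range_succ, sum_range_succ, sum_range_zero]
      simp [eg_psi_zero, eg_psi_one, ← hg]
    have p2 : eg (psi s) 2 = 2 * (1 - s) * s ^ 2 := by
      have := eg_psi s 0
      simpa using this
    have p3 : eg (psi s) 3 = 2 * (1 - s) * s ^ 2 * (3 - s) := by
      have := eg_psi s 1
      norm_num at this
      linarith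
    have G2 : eg (GG (s :: L)) 2 = 2 * (1 - s) * g 2 + 4 * s ^ 2 * g 1 + 2 * (1 - s) * s ^ 2 * g 0 := by
      rw [GG, eg_mul, sum_range_succ, sum_range_succ, sum_range_succ, sum_range_zero]
      simp [eg_psi_zero, eg_psi_one, p2, ← hg]
      ring
    have G3 : eg (GG (s :: L)) 3 = 2 * (1 - s) * g 3 + 6 * s ^ 2 * g 2 + 6 * (1 - s) * s ^ 2 * g 1
        + 2 * (1 - s) * s ^ 2 * (3 - s) * g 0 := by
      rw [GG, eg_mul, sum_range_succ, sum_range_succ, sum_range_succ, sum_range_succ, sum_range_zero]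
      simp [eg_psi_zero, eg_psi_one, p2, p3, ← hg]
      ring
    have q2 : Sg ^ 2 ≤ g 2 := by
      have := a2 0
      simpa using this
    refine ⟨?_, ?_, ?_, ?_⟩
    · rw [G0]; nlinarith
    · rw [G0, G1, List.sum_cons, ← hSg]
      nlinarith [sq_nonneg (1 - 2 * s), mul_nonneg (show (0 : ℝ) ≤ 1 - 2 * s by linarith) hS0,
        mul_nonneg (sq_nonneg s) (show 0 ≤ g 0 - 1 by linarith),
        mul_nonneg (show (0 : ℝ) ≤ 1 - s by linarith) (show 0 ≤ g 1 + g 0 / 2 - (Sg + 1 / 2) by linarith)]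
    · intro x
      rw [G0, G1, G2, List.sum_cons, ← hSg]
      have b1 := a2 (x - s)
      have b2 := a2 (x + s)
      have b3 := mul_le_mul_of_nonneg_left b2 (show (0 : ℝ) ≤ 1 - 2 * s by linarith)
      have b4 : 0 ≤ (1 - 2 * s) * (Sg - (x + s)) ^ 2 :=
        mul_nonneg (by linarith) (sq_nonneg _)
      have e1 : 2 * (1 - s) * g 2 + 4 * s ^ 2 * g 1 + 2 * (1 - s) * s ^ 2 * g 0
          - 2 * x * (2 * (1 - s) * g 1 + 2 * s ^ 2 * g 0) + x ^ 2 * (2 * (1 - s) * g 0)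
          = (g 2 - 2 * (x - s) * g 1 + (x - s) ^ 2 * g 0)
            + (1 - 2 * s) * (g 2 - 2 * (x + s) * g 1 + (x + s) ^ 2 * g 0) := by ring
      rw [e1]
      have e2 : (s + Sg - x) ^ 2 = (Sg - (x - s)) ^ 2 := by ring
      rw [e2]
      linarith
    · intro n hn
      rw [List.sum_cons, ← hSg]
      rcases (show n = 2 ∨ n = 3 ∨ 4 ≤ n by omega) with rfl | rfl | hn4
      · -- n = 2
        rw [G2]
        have b1 := a2 (-s)
        have b2 := a2 s
        have b3 := mul_le_mul_of_nonneg_left b2 (show (0 : ℝ) ≤ 1 - 2 * s by linarith)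
        have b4 : 0 ≤ (1 - 2 * s) * (Sg - s) ^ 2 := mul_nonneg (by linarith) (sq_nonneg _)
        have e1 : 2 * (1 - s) * g 2 + 4 * s ^ 2 * g 1 + 2 * (1 - s) * s ^ 2 * g 0
            = (g 2 - 2 * (-s) * g 1 + (-s) ^ 2 * g 0)
              + (1 - 2 * s) * (g 2 - 2 * s * g 1 + s ^ 2 * g 0) := by ring
        rw [e1]
        have e2 : (s + Sg) ^ 2 = (Sg - (-s)) ^ 2 := by ring
        rw [e2]
        linarith
      · -- n = 3
        rw [G3]
        have q3 := a3 3 (by norm_num)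
        have t1 : 0 ≤ (1 - 2 * s) * Sg * (Sg ^ 2 - 3 * s * Sg + 3 * s ^ 2) := by
          apply mul_nonneg (mul_nonneg (by linarith) hS0)
          nlinarith [sq_nonneg (2 * Sg - 3 * s)]
        have t2 : 0 ≤ s ^ 2 * (6 - 9 * s + 2 * s ^ 2) := by
          apply mul_nonneg (sq_nonneg s); nlinarith
        have m1 : 0 ≤ 2 * (1 - s) * (g 3 - Sg ^ 3) := mul_nonneg (by linarith) (by linarith)
        have m2 : 0 ≤ 6 * s ^ 2 * (g 2 - Sg ^ 2) := mul_nonneg (by positivity) (by linarith)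
        have m3 : 0 ≤ 6 * (1 - s) * s ^ 2 * (g 1 + g 0 / 2 - (Sg + 1 / 2)) :=
          mul_nonneg (mul_nonneg (by linarith) (sq_nonneg s)) (by linarith)
        have m4 : 0 ≤ (1 - s) * s ^ 2 * (3 - 2 * s) * (g 0 - 1) :=
          mul_nonneg (mul_nonneg (mul_nonneg (by linarith) (sq_nonneg s)) (by linarith)) (by linarith)
        have key : 2 * (1 - s) * g 3 + 6 * s ^ 2 * g 2 + 6 * (1 - s) * s ^ 2 * g 1
            + 2 * (1 - s) * s ^ 2 * (3 - s) * g 0 - (s + Sg) ^ 3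
            = 2 * (1 - s) * (g 3 - Sg ^ 3) + 6 * s ^ 2 * (g 2 - Sg ^ 2)
              + 6 * (1 - s) * s ^ 2 * (g 1 + g 0 / 2 - (Sg + 1 / 2))
              + (1 - s) * s ^ 2 * (3 - 2 * s) * (g 0 - 1)
              + (1 - 2 * s) * Sg * (Sg ^ 2 - 3 * s * Sg + 3 * s ^ 2)
              + s ^ 2 * (6 - 9 * s + 2 * s ^ 2) := by ring
        linarith
      · -- n ≥ 4
        obtain ⟨m, rfl⟩ : ∃ m, n = m + 4 := ⟨n - 4, by omega⟩
        rw [GG, eg_mul, ← hg, add_pow s Sg (m + 4)]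
        rw [show m + 4 + 1 = (m + 3) + 1 + 1 by ring, sum_range_succ, sum_range_succ,
          sum_range_succ (fun k => (((m + 4).choose k : ℕ) : ℝ) * (eg (psi s) k * g (m + 4 - k))),
          sum_range_succ (fun k => (((m + 4).choose k : ℕ) : ℝ) * (eg (psi s) k * g (m + 4 - k)))]
        set ψ := eg (psi s) with hψ
        have ψge : ∀ k, 2 ≤ k → s ^ k ≤ ψ k := fun k hk => eg_psi_ge hs0 hs1 k hk
        -- the last two terms
        have ec : (((m + 4).choose (m + 3) : ℕ) : ℝ) = m + 4 := by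
          rw [show m + 4 = (m + 3) + 1 by ring, Nat.choose_succ_self_right]; push_cast; ring
        have last : s ^ (m + 3) * Sg ^ (m + 4 - (m + 3)) * (((m + 4).choose (m + 3) : ℕ) : ℝ)
            + s ^ (m + 3 + 1) * Sg ^ (m + 4 - (m + 3 + 1)) * (((m + 4).choose (m + 3 + 1) : ℕ) : ℝ)
            ≤ (((m + 4).choose (m + 3) : ℕ) : ℝ) * (ψ (m + 3) * g (m + 4 - (m + 3)))
            + (((m + 4).choose (m + 3 + 1) : ℕ) : ℝ) * (ψ (m + 3 + 1) * g (m + 4 - (m + 3 + 1))) := by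
          rw [ec, show m + 3 + 1 = m + 4 by ring, Nat.choose_self, show m + 4 - (m + 3) = 1 by omega,
            show m + 4 - (m + 4) = 0 by omega]
          have r1 := eg_psi_ratio hs1 m
          rw [← hψ] at r1
          have r2 := ψge (m + 3) (by omega)
          have r3 := ψge (m + 4) (by omega)
          have r4 : 0 ≤ s ^ (m + 3) := by positivity
          have hm : (0 : ℝ) ≤ m := Nat.cast_nonneg m
          have r5 : (m + 4 : ℝ) * ψ (m + 3) * (Sg + 1 / 2) ≤ (m + 4 : ℝ) * ψ (m + 3) * (g 1 + g 0 / 2) :=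
            mul_le_mul_of_nonneg_left a1 (mul_nonneg (by linarith) (r4.trans r2))
          have r6 : (ψ (m + 4) - (m + 4 : ℝ) / 2 * ψ (m + 3)) * 1
              ≤ (ψ (m + 4) - (m + 4 : ℝ) / 2 * ψ (m + 3)) * g 0 :=
            mul_le_mul_of_nonneg_left a0 (by linarith)
          have r7 : (m + 4 : ℝ) * s ^ (m + 3) * Sg ≤ (m + 4 : ℝ) * ψ (m + 3) * Sg :=
            mul_le_mul_of_nonneg_right (mul_le_mul_of_nonneg_left r2 (by linarith)) hS0
          simp only [pow_one, pow_zero, Nat.cast_one, mul_one, one_mul]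
          nlinarith
        -- the first terms
        have first : ∑ x ∈ range (m + 3), s ^ x * Sg ^ (m + 4 - x) * (((m + 4).choose x : ℕ) : ℝ)
            ≤ ∑ x ∈ range (m + 3), (((m + 4).choose x : ℕ) : ℝ) * (ψ x * g (m + 4 - x)) := by
          rw [sum_range_succ', sum_range_succ', sum_range_succ',
            sum_range_succ' (fun x => (((m + 4).choose x : ℕ) : ℝ) * (ψ x * g (m + 4 - x))),
            sum_range_succ' (fun x => (((m + 4).choose (x + 1) : ℕ) : ℝ) * (ψ (x + 1) * g (m + 4 - (x + 1)))),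
            sum_range_succ' (fun x => (((m + 4).choose (x + 1 + 1) : ℕ) : ℝ) * (ψ (x + 1 + 1) * g (m + 4 - (x + 1 + 1))))]
          have hmid : ∑ k ∈ range m, s ^ (k + 1 + 1 + 1) * Sg ^ (m + 4 - (k + 1 + 1 + 1)) *
              (((m + 4).choose (k + 1 + 1 + 1) : ℕ) : ℝ)
              ≤ ∑ k ∈ range m, (((m + 4).choose (k + 1 + 1 + 1) : ℕ) : ℝ) *
                (ψ (k + 1 + 1 + 1) * g (m + 4 - (k + 1 + 1 + 1))) := by
            apply sum_le_sum
            intro k hk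
            have hk' := mem_range.1 hk
            rw [mul_comm]
            apply mul_le_mul_of_nonneg_left _ (Nat.cast_nonneg _)
            exact mul_le_mul (ψge _ (by omega)) (a3 _ (by omega)) (by positivity)
              ((by positivity : (0 : ℝ) ≤ s ^ (k + 1 + 1 + 1)).trans (ψge _ (by omega)))
          have e0 : ψ 0 = 2 * (1 - s) := eg_psi_zero s
          have e1 : ψ 1 = 2 * s ^ 2 := eg_psi_one s
          have e2 : ψ 2 = 2 * (1 - s) * s ^ 2 := p2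
          have c1 : (((m + 4).choose 1 : ℕ) : ℝ) = m + 4 := by rw [Nat.choose_one_right]; push_cast; ring
          have c2' : (((m + 4).choose 2 : ℕ) : ℝ) = (m + 4) * (m + 3) / 2 := by
            rw [Nat.cast_choose_two]; push_cast; ring
          have h4 := a3 (m + 4) (by omega)
          have h3 := a3 (m + 3) (by omega)
          have h2 := a3 (m + 2) (by omega)
          simp only [zero_add, Nat.choose_zero_right, Nat.cast_one, pow_zero, Nat.sub_zero]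
          rw [c1, c2', e0, e1, e2, show m + 4 - 1 = m + 3 by omega,
            show m + 4 - 2 = m + 2 by omega, pow_one, one_mul, one_mul, mul_one]
          have hm : (0 : ℝ) ≤ m := Nat.cast_nonneg m
          have m1 : 2 * (1 - s) * Sg ^ (m + 4) ≤ 2 * (1 - s) * g (m + 4) :=
            mul_le_mul_of_nonneg_left h4 (by linarith)
          have m2 : (m + 4 : ℝ) * (2 * s ^ 2 * Sg ^ (m + 3)) ≤ (m + 4 : ℝ) * (2 * s ^ 2 * g (m + 3)) :=
            mul_le_mul_of_nonneg_left (mul_le_mul_of_nonneg_left h3 (by positivity)) (by linarith)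
          have m3 : ((m + 4 : ℝ) * (m + 3) / 2) * (2 * (1 - s) * s ^ 2 * Sg ^ (m + 2))
              ≤ ((m + 4 : ℝ) * (m + 3) / 2) * (2 * (1 - s) * s ^ 2 * g (m + 2)) :=
            mul_le_mul_of_nonneg_left (mul_le_mul_of_nonneg_left h2
              (mul_nonneg (by linarith) (sq_nonneg s))) (by positivity)
          have m4 : 0 ≤ (1 - 2 * s) * Sg ^ (m + 2) *
              (Sg ^ 2 - (m + 4 : ℝ) * s * Sg + ((m + 4 : ℝ) * (m + 3) / 2) * s ^ 2) := by
            apply mul_nonneg (mul_nonneg (by linarith) (by positivity))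
            nlinarith [sq_nonneg (2 * Sg - (m + 4 : ℝ) * s), mul_nonneg (mul_nonneg
              (show (0 : ℝ) ≤ m + 4 by linarith) (show (0 : ℝ) ≤ m + 2 by linarith)) (sq_nonneg s)]
          have key : 2 * (1 - s) * Sg ^ (m + 4) + (m + 4 : ℝ) * (2 * s ^ 2 * Sg ^ (m + 3))
              + ((m + 4 : ℝ) * (m + 3) / 2) * (2 * (1 - s) * s ^ 2 * Sg ^ (m + 2))
              = s ^ 2 * Sg ^ (m + 2) * ((m + 4 : ℝ) * (m + 3) / 2) + s * Sg ^ (m + 3) * (m + 4 : ℝ)
                + Sg ^ (m + 4) + (1 - 2 * s) * Sg ^ (m + 2) *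
              (Sg ^ 2 - (m + 4 : ℝ) * s * Sg + ((m + 4 : ℝ) * (m + 3) / 2) * s ^ 2) := by ring
          linarith
        linarith

/-- **(C3)** -/
theorem c3 (L : List ℝ) (h : ∀ s ∈ L, 0 ≤ s ∧ s ≤ 1 / 2) (m : ℕ) :
    eg (GG L) 0 * (L.map (fun s => s ^ 2)).sum * ((m : ℝ) + 3 / 2) ^ m ≤ eg (GG L) (m + 2) := by
  induction L with
  | nil =>
    simp only [List.map_nil, List.sum_nil, mul_zero, zero_mul]
    exact eg_nonneg (NN_GG [] (by simp)) _
  | cons s L ih =>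
    have ih' := ih (fun t ht => h t (by simp [ht]))
    obtain ⟨hs0, hs1⟩ := h s (by simp)
    have hNN := NN_GG L (fun t ht => h t (by simp [ht]))
    have gn : ∀ n, 0 ≤ eg (GG L) n := fun n => eg_nonneg hNN n
    have G0 : eg (GG (s :: L)) 0 = 2 * (1 - s) * eg (GG L) 0 := by
      rw [GG, eg_mul]
      simp [eg_psi_zero]
    rw [G0, List.map_cons, List.sum_cons, GG, eg_mul, sum_range_succ, sum_range_succ']
    have hmid : 0 ≤ ∑ k ∈ range (m + 1), (((m + 2).choose (k + 1) : ℕ) : ℝ) *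
        (eg (psi s) (k + 1) * eg (GG L) (m + 2 - (k + 1))) := by
      apply sum_nonneg
      intro k _
      exact mul_nonneg (Nat.cast_nonneg _) (mul_nonneg (eg_nonneg (NN_psi hs1) _) (gn _))
    rw [Nat.choose_self, Nat.choose_zero_right, Nat.cast_one, one_mul, one_mul, eg_psi_zero,
      eg_psi, Nat.sub_zero, Nat.sub_self]
    have hm : (0 : ℝ) ≤ m := Nat.cast_nonneg m
    have p1 : ((m : ℝ) + 3 / 2) ^ m ≤ ((m : ℝ) + 2 - s) ^ m := pow_shift m (by linarith) (by linarith)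
    have p2 : 2 * (1 - s) * (eg (GG L) 0 * (L.map (fun s => s ^ 2)).sum * ((m : ℝ) + 3 / 2) ^ m)
        ≤ 2 * (1 - s) * eg (GG L) (m + 2) := mul_le_mul_of_nonneg_left ih' (by linarith)
    have p3 : (2 * (1 - s) * s ^ 2 * eg (GG L) 0) * ((m : ℝ) + 3 / 2) ^ m
        ≤ (2 * (1 - s) * s ^ 2 * eg (GG L) 0) * ((m : ℝ) + 2 - s) ^ m :=
      mul_le_mul_of_nonneg_left p1 (mul_nonneg (mul_nonneg (by linarith) (sq_nonneg s)) (gn 0))
    nlinarith

/-- `G₁ ≥ G₀ (2 τ S - τ² (l - S))` -/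
theorem c4 (L : List ℝ) (h : ∀ s ∈ L, 0 ≤ s ∧ s ≤ 1 / 2) (τ : ℝ) :
    eg (GG L) 0 * (2 * τ * L.sum - τ ^ 2 * ((L.length : ℝ) - L.sum)) ≤ eg (GG L) 1 := by
  induction L with
  | nil =>
    have := eg_nonneg (NN_GG [] (by simp)) 1
    simpa using this
  | cons s L ih =>
    have ih' := ih (fun t ht => h t (by simp [ht]))
    obtain ⟨hs0, hs1⟩ := h s (by simp)
    have gn : 0 ≤ eg (GG L) 0 := eg_nonneg (NN_GG L (fun t ht => h t (by simp [ht]))) 0
    have G0 : eg (GG (s :: L)) 0 = 2 * (1 - s) * eg (GG L) 0 := by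
      rw [GG, eg_mul]
      simp [eg_psi_zero]
    have G1 : eg (GG (s :: L)) 1 = 2 * (1 - s) * eg (GG L) 1 + 2 * s ^ 2 * eg (GG L) 0 := by
      rw [GG, eg_mul, sum_range_succ, sum_range_succ, sum_range_zero]
      simp [eg_psi_zero, eg_psi_one]
    rw [G0, G1, List.sum_cons, List.length_cons]
    push_cast
    have m1 := mul_le_mul_of_nonneg_left ih' (show (0 : ℝ) ≤ 2 * (1 - s) by linarith)
    have m2 : 0 ≤ 2 * eg (GG L) 0 * (s - τ * (1 - s)) ^ 2 := mul_nonneg (by linarith) (sq_nonneg _)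
    nlinarith

/-- `G₀ Σ s² ≥ G₁ / 2` -/
theorem c5 (L : List ℝ) (h : ∀ s ∈ L, 0 ≤ s ∧ s ≤ 1 / 2) :
    eg (GG L) 1 ≤ 2 * (eg (GG L) 0 * (L.map (fun s => s ^ 2)).sum) := by
  induction L with
  | nil =>
    rw [GG]; unfold eg; rw [coeff_one]; simp
  | cons s L ih =>
    have ih' := ih (fun t ht => h t (by simp [ht]))
    obtain ⟨hs0, hs1⟩ := h s (by simp)
    have gn : 0 ≤ eg (GG L) 0 := eg_nonneg (NN_GG L (fun t ht => h t (by simp [ht]))) 0
    have G0 : eg (GG (s :: L)) 0 = 2 * (1 - s) * eg (GG L) 0 := by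
      rw [GG, eg_mul]
      simp [eg_psi_zero]
    have G1 : eg (GG (s :: L)) 1 = 2 * (1 - s) * eg (GG L) 1 + 2 * s ^ 2 * eg (GG L) 0 := by
      rw [GG, eg_mul, sum_range_succ, sum_range_succ, sum_range_zero]
      simp [eg_psi_zero, eg_psi_one]
    rw [G0, G1, List.map_cons, List.sum_cons]
    have m1 := mul_le_mul_of_nonneg_left ih' (show (0 : ℝ) ≤ 2 * (1 - s) by linarith)
    have m2 : 0 ≤ (1 - 2 * s) * (s ^ 2 * eg (GG L) 0) :=
      mul_nonneg (by linarith) (mul_nonneg (sq_nonneg s) gn)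
    nlinarith

/-- `G₀ ≥ 2^(l - 2S)` -/
theorem c6 (L : List ℝ) (h : ∀ s ∈ L, 0 ≤ s ∧ s ≤ 1 / 2) :
    (2 : ℝ) ^ ((L.length : ℝ) - 2 * L.sum) ≤ eg (GG L) 0 := by
  induction L with
  | nil => rw [GG]; unfold eg; rw [coeff_one]; simp
  | cons s L ih =>
    have ih' := ih (fun t ht => h t (by simp [ht]))
    obtain ⟨hs0, hs1⟩ := h s (by simp)
    have G0 : eg (GG (s :: L)) 0 = 2 * (1 - s) * eg (GG L) 0 := by
      rw [GG, eg_mul]
      simp [eg_psi_zero]
    rw [G0, List.sum_cons, List.length_cons]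
    push_cast
    rw [show (L.length : ℝ) + 1 - 2 * (s + L.sum) = (1 - 2 * s) + ((L.length : ℝ) - 2 * L.sum) by ring,
      Real.rpow_add (by norm_num)]
    have b := rpow_one_add_le_one_add_mul_self (s := 1) (p := 1 - 2 * s) (by norm_num)
      (by linarith) (by linarith)
    rw [show (1 : ℝ) + 1 = 2 by norm_num] at b
    apply mul_le_mul (by linarith) ih' (by positivity) (by linarith)

end Pool.Agent.Lib_helper83.SRC
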