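import Pool.Agent.Lib_helper83.SRC.ZSmall

set_option autoImplicit false

/-! # `Z` for one star, large mean (`S + p ≥ 1`) -/

namespace Pool.Agent.Lib_helper83.SRC

open Finset PowerSeries Pool.Agent.Lib_helper36.SRC Pool.Agent.Lib_helper36.SRC.RT
  Pool.Agent.Lib_helper79.SRC

/-- `y² e^{-ax}` in powers of `x e^{-x}` -/
noncomputable def Y2 (a : ℝ) : ℝ⟦X⟧ := X ^ 2 * ab (2 - a) - C 2 * (X * ab (1 - a)) + ab (-a)

/-- `y³ e^{-ax}` in powers of `x e^{-x}` -/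
noncomputable def Y3 (a : ℝ) : ℝ⟦X⟧ :=
  X ^ 3 * ab (3 - a) - C 3 * (X ^ 2 * ab (2 - a)) + C 3 * (X * ab (1 - a)) - ab (-a)

lemma S_Xab (k : ℕ) (a : ℝ) : S (X ^ k * ab ((k : ℝ) - a)) = X ^ k * Ex (-a) := by
  rw [map_mul, S_X_pow, S_ab, mul_assoc, ← Ex_add]
  congr 2; ring

lemma S_Y2 (a : ℝ) : S (Y2 a) = (X - 1) ^ 2 * Ex (-a) := by
  have h2 := S_Xab 2 a
  have h1 := S_Xab 1 a
  have h0 := S_Xab 0 a
  norm_num at h2 h1 h0
  unfold Y2
  rw [map_add, map_sub, map_mul S (C 2), S_C, h0]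
  rw [show S (X ^ 2 * ab (2 - a)) = X ^ 2 * Ex (-a) by rw [map_mul, map_pow]; exact h2,
    show S (X * ab (1 - a)) = X * Ex (-a) by rw [map_mul]; exact h1, map_ofNat C 2]
  ring

lemma S_Y3 (a : ℝ) : S (Y3 a) = (X - 1) ^ 3 * Ex (-a) := by
  have h3 := S_Xab 3 a
  have h2 := S_Xab 2 a
  have h1 := S_Xab 1 a
  have h0 := S_Xab 0 a
  norm_num at h3 h2 h1 h0
  unfold Y3
  rw [map_sub, map_add, map_sub, map_mul S (C 3), map_mul S (C 3), S_C, h0]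
  rw [show S (X ^ 3 * ab (3 - a)) = X ^ 3 * Ex (-a) by rw [map_mul, map_pow]; exact h3,
    show S (X ^ 2 * ab (2 - a)) = X ^ 2 * Ex (-a) by rw [map_mul, map_pow]; exact h2,
    show S (X * ab (1 - a)) = X * Ex (-a) by rw [map_mul]; exact h1, map_ofNat C 3]
  ring

lemma eg_X_mul (F : ℝ⟦X⟧) (n : ℕ) : eg (X * F) n = n * eg F (n - 1) := by
  unfold eg
  cases n with
  | zero => simp
  | succ n =>
    rw [coeff_succ_X_mul, Nat.factorial_succ]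
    push_cast
    ring_nf

lemma eg_ab (c : ℝ) (n : ℕ) : eg (ab c) n = if n = 0 then 1 else c * (c + n) ^ (n - 1) := by
  unfold eg
  split_ifs with h
  · subst h; rw [coeff_ab_zero]; simp
  · rw [coeff_ab_pos (Nat.pos_of_ne_zero h)]
    have f : ((n.factorial : ℕ) : ℝ) ≠ 0 := by exact_mod_cast n.factorial_ne_zero
    field_simp

lemma eg_sub (F G : ℝ⟦X⟧) (n : ℕ) : eg (F - G) n = eg F n - eg G n := by
  unfold eg; rw [map_sub]; ring

lemma eg_Y2 (a : ℝ) (n : ℕ) : eg (Y2 a) n =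
    n * (((n - 1 : ℕ) : ℝ) * eg (ab (2 - a)) (n - 1 - 1)) - 2 * (n * eg (ab (1 - a)) (n - 1))
      + eg (ab (-a)) n := by
  unfold Y2
  rw [pow_two, mul_assoc X X, eg_add, eg_sub, eg_X_mul, eg_X_mul, eg_smul, eg_X_mul]

lemma eg_Y3 (a : ℝ) (n : ℕ) : eg (Y3 a) n =
    n * (((n - 1 : ℕ) : ℝ) * (((n - 1 - 1 : ℕ) : ℝ) * eg (ab (3 - a)) (n - 1 - 1 - 1)))
      - 3 * (n * (((n - 1 : ℕ) : ℝ) * eg (ab (2 - a)) (n - 1 - 1)))
      + 3 * (n * eg (ab (1 - a)) (n - 1)) - eg (ab (-a)) n := by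
  unfold Y3
  rw [pow_succ, pow_two, eg_sub, eg_add, eg_sub, mul_assoc (X * X) X, mul_assoc X X, mul_assoc X X,
    eg_X_mul, eg_X_mul, eg_X_mul, eg_smul, eg_X_mul, eg_X_mul, eg_smul, eg_X_mul]

lemma eg_Y2_zero (a : ℝ) : eg (Y2 a) 0 = 1 := by rw [eg_Y2]; simp [eg_ab]
lemma eg_Y2_one (a : ℝ) : eg (Y2 a) 1 = -(a + 2) := by rw [eg_Y2]; norm_num [eg_ab] <;> ring
lemma eg_Y2_two (a : ℝ) : eg (Y2 a) 2 = a ^ 2 + 2 * a - 2 := by
  rw [eg_Y2]; norm_num [eg_ab]; ring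
lemma eg_Y2_three (a : ℝ) : eg (Y2 a) 3 = 9 * a - 6 - a ^ 3 := by
  rw [eg_Y2]; norm_num [eg_ab]; ring
lemma eg_Y3_zero (a : ℝ) : eg (Y3 a) 0 = -1 := by rw [eg_Y3]; simp [eg_ab]
lemma eg_Y3_one (a : ℝ) : eg (Y3 a) 1 = a + 3 := by rw [eg_Y3]; norm_num [eg_ab] <;> ring
lemma eg_Y3_two (a : ℝ) : eg (Y3 a) 2 = -(a * (a + 4)) := by
  rw [eg_Y3]; norm_num [eg_ab]; ring
lemma eg_Y3_three (a : ℝ) : eg (Y3 a) 3 = a ^ 3 + 3 * a ^ 2 - 9 * a - 3 := by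
  rw [eg_Y3]; norm_num [eg_ab]; ring

lemma eg_Y2_ge (a : ℝ) (m : ℕ) : eg (Y2 a) (m + 4) =
    ((m : ℝ) + 4 - a) ^ m * (((m : ℝ) + 4 - a) * ((3 * a - 2) * (m + 4) - a ^ 3)) := by
  rw [eg_Y2, eg_ab, eg_ab, eg_ab, if_neg (by omega), if_neg (by omega), if_neg (by omega)]
  simp only [show m + 4 - 1 - 1 - 1 = m + 1 by omega, show m + 4 - 1 - 1 = m + 2 by omega,
    show m + 4 - 1 = m + 3 by omega]
  push_cast
  rw [show 2 - a + ((m : ℝ) + 2) = m + 4 - a by ring, show 1 - a + ((m : ℝ) + 3) = m + 4 - a by ring,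
    show -a + ((m : ℝ) + 4) = m + 4 - a by ring]
  ring

lemma eg_Y3_ge (a : ℝ) (m : ℕ) : eg (Y3 a) (m + 4) =
    ((m : ℝ) + 4 - a) ^ m * (-3 * ((m : ℝ) + 4) ^ 2 + (6 * a ^ 2 - 8 * a + 6) * (m + 4) - a ^ 4) := by
  rw [eg_Y3, eg_ab, eg_ab, eg_ab, eg_ab, if_neg (by omega), if_neg (by omega), if_neg (by omega),
    if_neg (by omega)]
  simp only [show m + 4 - 1 - 1 - 1 - 1 = m by omega, show m + 4 - 1 - 1 - 1 = m + 1 by omega,
    show m + 4 - 1 - 1 = m + 2 by omega, show m + 4 - 1 = m + 3 by omega]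
  push_cast
  rw [show 3 - a + ((m : ℝ) + 1) = m + 4 - a by ring, show 2 - a + ((m : ℝ) + 2) = m + 4 - a by ring,
    show 1 - a + ((m : ℝ) + 3) = m + 4 - a by ring, show -a + ((m : ℝ) + 4) = m + 4 - a by ring]
  ring

/-! ## real inequalities -/

/-- the bad polynomial -/
def BB (q0 q1 a n : ℝ) : ℝ := q0 * ((n - a) * (a ^ 3 - (3 * a - 2) * n))
    + q1 * (-3 * n ^ 2 + (6 * a ^ 2 - 8 * a + 6) * n - a ^ 4)

lemma BB_low {a q0 q1 n : ℝ} (hn4 : 4 ≤ n) (hq0 : 0 ≤ q0) (hq1 : 0 ≤ q1)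
    (hq : q0 + 6 * q1 ≤ 1) (hna : n ≤ a) : |BB q0 q1 a n| ≤ a ^ 4 := by
  have ha4 : 4 ≤ a := by linarith
  have ha0 : 0 < a := by linarith
  have b1 : 0 ≤ a ^ 3 - (3 * a - 2) * n := by
    have : (3 * a - 2) * n ≤ (3 * a - 2) * a := mul_le_mul_of_nonneg_left hna (by linarith)
    nlinarith [mul_nonneg (mul_nonneg ha0.le (show (0 : ℝ) ≤ a - 1 by linarith)) (show (0 : ℝ) ≤ a - 2 by linarith)]
  have b2 : a ^ 3 - (3 * a - 2) * n ≤ a ^ 3 := by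
    have : 0 ≤ (3 * a - 2) * n := mul_nonneg (by linarith) (by linarith)
    linarith
  have b3 : 0 ≤ (a - n) * (a ^ 3 - (3 * a - 2) * n) := mul_nonneg (by linarith) b1
  have b4 : (a - n) * (a ^ 3 - (3 * a - 2) * n) ≤ a * a ^ 3 :=
    mul_le_mul (by linarith) b2 b1 ha0.le
  have b5 : -(a ^ 4) ≤ -3 * n ^ 2 + (6 * a ^ 2 - 8 * a + 6) * n - a ^ 4 := by
    have : 0 ≤ n * (6 * a ^ 2 - 8 * a + 6 - 3 * n) := mul_nonneg (by linarith) (by nlinarith)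
    nlinarith
  have b6 : -3 * n ^ 2 + (6 * a ^ 2 - 8 * a + 6) * n - a ^ 4 ≤ a ^ 4 := by
    have h1 : (6 * a ^ 2) * n ≤ 6 * a ^ 2 * a := mul_le_mul_of_nonneg_left hna (by positivity)
    have h8 : (-8 * a + 6) * n ≤ 0 := mul_nonpos_of_nonpos_of_nonneg (by linarith) (by linarith)
    have h6 : 6 * a ^ 3 ≤ 2 * a ^ 4 := by
      have : 0 ≤ a ^ 3 * (2 * a - 6) := mul_nonneg (by positivity) (by linarith)
      nlinarith
    nlinarith [sq_nonneg n]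
  have h4 : 0 ≤ a ^ 4 := by positivity
  unfold BB
  rw [abs_le]
  constructor
  · have m1 : q0 * ((a - n) * (a ^ 3 - (3 * a - 2) * n)) ≤ q0 * (a * a ^ 3) :=
      mul_le_mul_of_nonneg_left b4 hq0
    have m2 := mul_le_mul_of_nonneg_left b5 hq1
    have m3 : (q0 + q1) * a ^ 4 ≤ 1 * a ^ 4 := mul_le_mul_of_nonneg_right (by linarith) h4
    linarith [show q0 * (a * a ^ 3) = q0 * a ^ 4 by ring, show (q0 + q1) * a ^ 4 = q0 * a ^ 4 + q1 * a ^ 4 by ring,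
      show q1 * -(a ^ 4) = -(q1 * a ^ 4) by ring,
      show q0 * ((n - a) * (a ^ 3 - (3 * a - 2) * n)) = -(q0 * ((a - n) * (a ^ 3 - (3 * a - 2) * n))) by ring]
  · have m1 : 0 ≤ q0 * ((a - n) * (a ^ 3 - (3 * a - 2) * n)) := mul_nonneg hq0 b3
    have m2 := mul_le_mul_of_nonneg_left b6 hq1
    have m3 : q1 * a ^ 4 ≤ 1 * a ^ 4 := mul_le_mul_of_nonneg_right (by linarith) h4
    linarith [show q0 * ((n - a) * (a ^ 3 - (3 * a - 2) * n)) = -(q0 * ((a - n) * (a ^ 3 - (3 * a - 2) * n))) by ring]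

lemma BB_mid {a q0 q1 n : ℝ} (hn4 : 4 ≤ n) (hq0 : 0 ≤ q0) (hq1 : 0 ≤ q1)
    (hq : q0 + 6 * q1 ≤ 1) (hna : a ≤ n) (hn2 : n ≤ 2 * a) : BB q0 q1 a n ≤ a ^ 4 := by
  have ha2 : 2 ≤ a := by linarith
  have ha0 : 0 < a := by linarith
  have b2 : a ^ 3 - (3 * a - 2) * n ≤ a ^ 3 := by
    have : 0 ≤ (3 * a - 2) * n := mul_nonneg (by linarith) (by linarith)
    linarith
  have b3 : (n - a) * (a ^ 3 - (3 * a - 2) * n) ≤ a * a ^ 3 := by
    calc (n - a) * (a ^ 3 - (3 * a - 2) * n) ≤ (n - a) * a ^ 3 :=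
          mul_le_mul_of_nonneg_left b2 (by linarith)
      _ ≤ a * a ^ 3 := mul_le_mul_of_nonneg_right (by linarith) (by positivity)
  have b4 : -3 * n ^ 2 + (6 * a ^ 2 - 8 * a + 6) * n - a ^ 4 ≤ 6 * a ^ 4 := by
    have h1 : (6 * a ^ 2) * n ≤ 6 * a ^ 2 * (2 * a) := mul_le_mul_of_nonneg_left hn2 (by positivity)
    have h8 : (-8 * a + 6) * n ≤ 0 := mul_nonpos_of_nonpos_of_nonneg (by linarith) (by linarith)
    have h6 : 12 * a ^ 3 ≤ 6 * a ^ 4 := by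
      have : 0 ≤ a ^ 3 * (6 * a - 12) := mul_nonneg (by positivity) (by linarith)
      nlinarith
    nlinarith [sq_nonneg n, show 0 ≤ a ^ 4 by positivity]
  have m1 := mul_le_mul_of_nonneg_left b3 hq0
  have m2 := mul_le_mul_of_nonneg_left b4 hq1
  have m3 : (q0 + 6 * q1) * a ^ 4 ≤ 1 * a ^ 4 := mul_le_mul_of_nonneg_right hq (by positivity)
  unfold BB
  linarith [show q0 * (a * a ^ 3) = q0 * a ^ 4 by ring,
    show (q0 + 6 * q1) * a ^ 4 = q0 * a ^ 4 + q1 * (6 * a ^ 4) by ring]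

lemma BB_high {a q0 q1 G g : ℝ} (m : ℕ) (ha : 3 / 4 ≤ a) (hq0 : 0 ≤ q0) (hq1 : 0 ≤ q1)
    (hq1' : q1 ≤ 1 / 16) (hq2 : 2 < a → q0 ≤ 7 / 16) (hq3 : 2 < a → q1 ≤ 9 / 512)
    (hG : 2 / 5 * a ≤ G) (hn2 : 2 * a < (m : ℝ) + 4)
    (h2 : G * ((m : ℝ) + 7 / 2) ^ (m + 2) ≤ g) :
    ((m : ℝ) + 4 - a) ^ m * BB q0 q1 a (m + 4) ≤ g := by
  set n : ℝ := (m : ℝ) + 4 with hn
  have hm : (0 : ℝ) ≤ m := Nat.cast_nonneg m
  have hn4 : 4 ≤ n := by rw [hn]; linarith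
  have ha0 : 0 < a := by linarith
  have hnh : (m : ℝ) + 7 / 2 = n - 1 / 2 := by rw [hn]; ring
  rw [hnh] at h2
  have hpow : (n - a) ^ m ≤ (n - 1 / 2) ^ m := pow_shift m (by linarith) (by linarith)
  have hpow0 : 0 ≤ (n - a) ^ m := pow_nonneg (by linarith) _
  have b4 : -3 * n ^ 2 + (6 * a ^ 2 - 8 * a + 6) * n - a ^ 4 ≤ 6 * a ^ 2 * n := by
    have h3 : 0 ≤ n * (3 * n - 6 + 8 * a) := mul_nonneg (by linarith) (by linarith)
    have h4 : 0 ≤ a ^ 4 := by positivity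
    nlinarith
  have h2' : (n - 1 / 2) ^ m * (2 / 5 * a * (n - 1 / 2) ^ 2) ≤ g := by
    have : (n - 1 / 2) ^ m * (2 / 5 * a * (n - 1 / 2) ^ 2) = 2 / 5 * a * (n - 1 / 2) ^ (m + 2) := by ring
    rw [this]
    exact (mul_le_mul_of_nonneg_right hG (pow_nonneg (by linarith) _)).trans h2
  rcases le_or_gt (a ^ 3) ((3 * a - 2) * n) with hc | hc
  · -- only the cubic part
    have hB1 : BB q0 q1 a n ≤ q1 * (6 * a ^ 2 * n) := by
      have m1 : q0 * ((n - a) * (a ^ 3 - (3 * a - 2) * n)) ≤ 0 :=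
        mul_nonpos_of_nonneg_of_nonpos hq0 (mul_nonpos_of_nonneg_of_nonpos (by linarith) (by linarith))
      have m2 := mul_le_mul_of_nonneg_left b4 hq1
      unfold BB; linarith
    have hfin : q1 * (6 * a ^ 2 * n) ≤ 2 / 5 * a * (n - 1 / 2) ^ 2 := by
      have k1 : q1 * (6 * a ^ 2 * n) ≤ 1 / 16 * (6 * a ^ 2 * n) :=
        mul_le_mul_of_nonneg_right hq1' (by positivity)
      have k2 : 1 / 16 * (6 * a ^ 2 * n) ≤ 2 / 5 * a * (n - 1 / 2) ^ 2 := by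
        have h0 : 0 ≤ a * (2 / 5 * (n - 1 / 2) ^ 2 - 3 / 8 * a * n) := by
          apply mul_nonneg ha0.le
          have : a * n ≤ n / 2 * n := mul_le_mul_of_nonneg_right (by linarith) (by linarith)
          nlinarith
        linarith [show a * (2 / 5 * (n - 1 / 2) ^ 2 - 3 / 8 * a * n)
          = 2 / 5 * a * (n - 1 / 2) ^ 2 - 1 / 16 * (6 * a ^ 2 * n) by ring]
      linarith
    calc (n - a) ^ m * BB q0 q1 a n ≤ (n - a) ^ m * (q1 * (6 * a ^ 2 * n)) :=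
          mul_le_mul_of_nonneg_left hB1 hpow0
      _ ≤ (n - 1 / 2) ^ m * (2 / 5 * a * (n - 1 / 2) ^ 2) :=
          mul_le_mul hpow hfin (by positivity) (pow_nonneg (by linarith) _)
      _ ≤ g := h2'
  · -- a ^ 3 > (3 a - 2) n
    have ha5 : 5 < a := by
      by_contra hcon
      have hcon' : a ≤ 5 := not_lt.1 hcon
      rcases le_or_gt a 2 with h | h
      · -- a ≤ 2
        have h4 : (3 * a - 2) * 4 ≤ (3 * a - 2) * n := mul_le_mul_of_nonneg_left hn4 (by linarith)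
        rcases le_or_gt a 1 with h' | h'
        · have c3 : a ^ 3 ≤ a := by
            have : 0 ≤ a * (1 - a ^ 2) := mul_nonneg ha0.le (by nlinarith)
            linarith [show a * (1 - a ^ 2) = a - a ^ 3 by ring]
          linarith
        · have c3 : a ^ 3 ≤ 4 * a := by
            have : 0 ≤ a * (4 - a ^ 2) := mul_nonneg ha0.le (by nlinarith)
            linarith [show a * (4 - a ^ 2) = 4 * a - a ^ 3 by ring]
          linarith
      · have h4 : (3 * a - 2) * (2 * a) ≤ (3 * a - 2) * n := mul_le_mul_of_nonneg_left hn2.le (by linarith)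
        have h6 : 0 ≤ a * (6 * a - 4 - a ^ 2) := by
          apply mul_nonneg ha0.le
          nlinarith
        linarith [show a * (6 * a - 4 - a ^ 2) = (3 * a - 2) * (2 * a) - a ^ 3 by ring]
    have hq0s := hq2 (by linarith)
    have hq1s := hq3 (by linarith)
    -- Bernoulli
    have hd : 0 < n - a := by linarith
    have bern : (n - a) ^ (m + 1) * (a + 1 / 2) ≤ (n - 1 / 2) ^ (m + 1) := by
      have hr : 0 ≤ (a - 1 / 2) / (n - a) := div_nonneg (by linarith) hd.le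
      have b := one_add_mul_le_pow (a := (a - 1 / 2) / (n - a)) (by linarith) (m + 1)
      have e1 : (n - a) * (1 + (a - 1 / 2) / (n - a)) = n - 1 / 2 := by field_simp; ring
      have e2 : (n - 1 / 2) ^ (m + 1) = (n - a) ^ (m + 1) * (1 + (a - 1 / 2) / (n - a)) ^ (m + 1) := by
        rw [← mul_pow, e1]
      rw [e2]
      apply mul_le_mul_of_nonneg_left _ (pow_nonneg hd.le _)
      refine le_trans ?_ b
      have : (a - 1 / 2) ≤ ((m + 1 : ℕ) : ℝ) * ((a - 1 / 2) / (n - a)) := by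
        rw [← mul_div_assoc, le_div_iff₀ hd, mul_comm]
        apply mul_le_mul_of_nonneg_right _ (by linarith)
        push_cast
        rw [hn]; linarith
      linarith
    have f1 : (n - a) ^ m * (q0 * ((n - a) * a ^ 3)) ≤
        (n - 1 / 2) ^ m * (7 / 16 * a ^ 2 * (n - 1 / 2)) := by
      have k0 : 0 ≤ (n - a) ^ (m + 1) := pow_nonneg hd.le _
      have k1 : (n - a) ^ m * (q0 * ((n - a) * a ^ 3)) = q0 * ((n - a) ^ (m + 1) * a) * a ^ 2 := by ring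
      have k2 : (n - a) ^ (m + 1) * a ≤ (n - 1 / 2) ^ (m + 1) := by
        refine le_trans ?_ bern
        apply mul_le_mul_of_nonneg_left _ k0; linarith
      have k3 : (n - 1 / 2) ^ m * (7 / 16 * a ^ 2 * (n - 1 / 2)) = 7 / 16 * (n - 1 / 2) ^ (m + 1) * a ^ 2 := by
        ring
      rw [k1, k3]
      apply mul_le_mul_of_nonneg_right _ (sq_nonneg a)
      exact mul_le_mul hq0s k2 (by positivity) (by norm_num)
    have f2 : (n - a) ^ m * (q1 * (6 * a ^ 2 * n)) ≤ (n - 1 / 2) ^ m * (9 / 512 * (6 * a ^ 2 * n)) := by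
      apply mul_le_mul hpow _ (by positivity) (pow_nonneg (by linarith) _)
      exact mul_le_mul_of_nonneg_right hq1s (by positivity)
    have hB1 : BB q0 q1 a n ≤ q0 * ((n - a) * a ^ 3) + q1 * (6 * a ^ 2 * n) := by
      have b2 : a ^ 3 - (3 * a - 2) * n ≤ a ^ 3 := by
        have : 0 ≤ (3 * a - 2) * n := mul_nonneg (by linarith) (by linarith)
        linarith
      have m1 := mul_le_mul_of_nonneg_left (mul_le_mul_of_nonneg_left b2 hd.le) hq0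
      have m2 := mul_le_mul_of_nonneg_left b4 hq1
      unfold BB; linarith
    have hfin : 7 / 16 * a ^ 2 * (n - 1 / 2) + 9 / 512 * (6 * a ^ 2 * n) ≤ 2 / 5 * a * (n - 1 / 2) ^ 2 := by
      have h0 : 0 ≤ a * (2 / 5 * (n - 1 / 2) ^ 2 - 7 / 16 * a * (n - 1 / 2) - 27 / 256 * a * n) := by
        apply mul_nonneg ha0.le
        have k1 : a * (n - 1 / 2) ≤ n / 2 * (n - 1 / 2) := mul_le_mul_of_nonneg_right (by linarith) (by linarith)
        have k2 : a * n ≤ n / 2 * n := mul_le_mul_of_nonneg_right (by linarith) (by linarith)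
        nlinarith
      linarith [show a * (2 / 5 * (n - 1 / 2) ^ 2 - 7 / 16 * a * (n - 1 / 2) - 27 / 256 * a * n)
        = 2 / 5 * a * (n - 1 / 2) ^ 2 - (7 / 16 * a ^ 2 * (n - 1 / 2) + 9 / 512 * (6 * a ^ 2 * n)) by ring]
    calc (n - a) ^ m * BB q0 q1 a n ≤ (n - a) ^ m * (q0 * ((n - a) * a ^ 3) + q1 * (6 * a ^ 2 * n)) :=
          mul_le_mul_of_nonneg_left hB1 hpow0
      _ = (n - a) ^ m * (q0 * ((n - a) * a ^ 3)) + (n - a) ^ m * (q1 * (6 * a ^ 2 * n)) := by ring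
      _ ≤ (n - 1 / 2) ^ m * (7 / 16 * a ^ 2 * (n - 1 / 2)) + (n - 1 / 2) ^ m * (9 / 512 * (6 * a ^ 2 * n)) :=
          add_le_add f1 f2
      _ = (n - 1 / 2) ^ m * (7 / 16 * a ^ 2 * (n - 1 / 2) + 9 / 512 * (6 * a ^ 2 * n)) := by ring
      _ ≤ (n - 1 / 2) ^ m * (2 / 5 * a * (n - 1 / 2) ^ 2) :=
          mul_le_mul_of_nonneg_left hfin (pow_nonneg (by linarith) _)
      _ ≤ g := h2'

/-- the bad part at level `m + 4` -/
lemma bad_ge {a q0 q1 G g : ℝ} (m : ℕ) (ha : 3 / 4 ≤ a) (hq0 : 0 ≤ q0) (hq1 : 0 ≤ q1)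
    (hq1' : q1 ≤ 1 / 16) (hq : q0 + 6 * q1 ≤ 1)
    (hq2 : 2 < a → q0 ≤ 7 / 16) (hq3 : 2 < a → q1 ≤ 9 / 512)
    (hG : 2 / 5 * a ≤ G) (h1 : a ^ (m + 4) ≤ g) (h2 : G * ((m : ℝ) + 7 / 2) ^ (m + 2) ≤ g) :
    -(q0 * eg (Y2 a) (m + 4) - q1 * eg (Y3 a) (m + 4)) ≤ g := by
  have e : -(q0 * eg (Y2 a) (m + 4) - q1 * eg (Y3 a) (m + 4))
      = ((m : ℝ) + 4 - a) ^ m * BB q0 q1 a (m + 4) := by
    rw [eg_Y2_ge, eg_Y3_ge]; unfold BB; ring
  rw [e]
  have hm : (0 : ℝ) ≤ m := Nat.cast_nonneg m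
  have ha0 : 0 < a := by linarith
  rcases le_or_gt ((m : ℝ) + 4) a with hna | hna
  · have hB1 := BB_low (by linarith) hq0 hq1 hq hna
    calc ((m : ℝ) + 4 - a) ^ m * BB q0 q1 a (m + 4) ≤ |((m : ℝ) + 4 - a) ^ m * BB q0 q1 a (m + 4)| :=
          le_abs_self _
      _ = |(m : ℝ) + 4 - a| ^ m * |BB q0 q1 a (m + 4)| := by rw [abs_mul, abs_pow]
      _ ≤ a ^ m * a ^ 4 := by
          apply mul_le_mul _ hB1 (abs_nonneg _) (by positivity)
          apply pow_shift m (abs_nonneg _)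
          rw [abs_le]; constructor <;> linarith
      _ = a ^ (m + 4) := by ring
      _ ≤ g := h1
  · rcases le_or_gt ((m : ℝ) + 4) (2 * a) with hn2 | hn2
    · have hB1 := BB_mid (by linarith) hq0 hq1 hq hna.le hn2
      calc ((m : ℝ) + 4 - a) ^ m * BB q0 q1 a (m + 4) ≤ ((m : ℝ) + 4 - a) ^ m * a ^ 4 :=
            mul_le_mul_of_nonneg_left hB1 (pow_nonneg (by linarith) _)
        _ ≤ a ^ m * a ^ 4 := mul_le_mul_of_nonneg_right (pow_shift m (by linarith) (by linarith)) (by positivity)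
        _ = a ^ (m + 4) := by ring
        _ ≤ g := h1
    · exact BB_high m ha hq0 hq1 hq1' hq2 hq3 hG hn2 h2

end Pool.Agent.Lib_helper83.SRC
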