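import Pool.Agent.Lib_helper83.SRC.ZLarge

set_option autoImplicit false

/-! # `Z` for one star -/

namespace Pool.Agent.Lib_helper83.SRC

open Finset PowerSeries Pool.Agent.Lib_helper36.SRC Pool.Agent.Lib_helper36.SRC.RT
  Pool.Agent.Lib_helper79.SRC

lemma sum_le_half (L : List ℝ) (h : ∀ s ∈ L, 0 ≤ s ∧ s ≤ 1 / 2) : L.sum ≤ (L.length : ℝ) / 2 := by
  induction L with
  | nil => simp
  | cons s L ih =>
    have := ih (fun t ht => h t (by simp [ht]))
    have := (h s (by simp)).2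
    rw [List.sum_cons, List.length_cons]; push_cast; linarith

/-- `G₁ (l - S) ≥ G₀ S²` -/
lemma titu (L : List ℝ) (h : ∀ s ∈ L, 0 ≤ s ∧ s ≤ 1 / 2) (hl : 0 < (L.length : ℝ) - L.sum) :
    eg (GG L) 0 * L.sum ^ 2 ≤ eg (GG L) 1 * ((L.length : ℝ) - L.sum) := by
  have := c4 L h (L.sum / ((L.length : ℝ) - L.sum))
  set d := (L.length : ℝ) - L.sum with hd
  have e : 2 * (L.sum / d) * L.sum - (L.sum / d) ^ 2 * d = L.sum ^ 2 / d := by
    field_simp; ring
  rw [e, ← mul_div_assoc, div_le_iff₀ hl] at this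
  exact this

lemma pow2_ge {x : ℝ} (hx : 0 ≤ x) : 1 + 0.693 * x ≤ (2 : ℝ) ^ x := by
  rw [Real.rpow_def_of_pos (by norm_num)]
  have h1 := Real.add_one_le_exp (Real.log 2 * x)
  have h2 := Real.log_two_gt_d9
  nlinarith

lemma pow2_ge' (x : ℝ) : 4 * (1 + Real.log 2 * (x - 2)) ≤ (2 : ℝ) ^ x := by
  have e : (2 : ℝ) ^ x = 4 * (2 : ℝ) ^ (x - 2) := by
    rw [Real.rpow_sub (by norm_num)]; norm_num; ring
  rw [e, Real.rpow_def_of_pos (by norm_num)]
  have h1 := Real.add_one_le_exp (Real.log 2 * (x - 2))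
  linarith

/-- the bound of `G₁` -/
lemma G1_bound (L : List ℝ) (h : ∀ s ∈ L, 0 ≤ s ∧ s ≤ 1 / 2) (hS : 15 / 16 ≤ L.sum) :
    4 / 5 * L.sum ≤ eg (GG L) 1 ∧
    (L.length ≤ 3 → L.sum / 4 + 2 / 5 ≤ eg (GG L) 1) ∧
    (4 ≤ L.length → 3 / 8 * (L.sum + 7 / 4) + 9 / 512 * (L.sum + 3) ≤ eg (GG L) 1) := by
  have h2 := sum_le_half L h
  have hl : 0 < (L.length : ℝ) - L.sum := by linarith
  have ht := titu L h hl
  have h6 := c6 L h
  set S := L.sum with hSd
  set l : ℝ := (L.length : ℝ) with hld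
  set g0 := eg (GG L) 0
  set g1 := eg (GG L) 1
  have hx : 0 ≤ l - 2 * S := by linarith
  have hp := (pow2_ge hx).trans h6
  have key : ∀ c : ℝ, c * (l - S) ≤ (1 + 0.693 * (l - 2 * S)) * S ^ 2 → c ≤ g1 := by
    intro c hc
    have h1 : (1 + 0.693 * (l - 2 * S)) * S ^ 2 ≤ g0 * S ^ 2 :=
      mul_le_mul_of_nonneg_right hp (sq_nonneg S)
    have h3 : c * (l - S) ≤ g1 * (l - S) := by linarith
    exact le_of_mul_le_mul_right h3 hl
  have hbig : 7 / 5 ≤ S → 0.95 * S ≤ g1 := by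
    intro hS7
    apply key
    have : 0 ≤ S * (0.05 * S + (0.693 * S - 0.95) * (l - 2 * S)) := by
      apply mul_nonneg (by linarith)
      have := mul_nonneg (show 0 ≤ 0.693 * S - 0.95 by linarith) hx
      linarith
    nlinarith
  have hlen : L.length = 2 ∨ L.length = 3 ∨ 4 ≤ L.length := by
    have : (1 : ℝ) < l := by linarith
    have : 1 < L.length := by
      have h' : (1 : ℝ) < ((L.length : ℕ) : ℝ) := this
      exact_mod_cast h'
    omega
  rcases hlen with hlen | hlen | hlen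
  · have hl2 : l = 2 := by rw [hld, hlen]; norm_num
    have hS1 : S ≤ 1 := by linarith
    have b : 0.85 ≤ g1 := by
      apply key
      rw [hl2]
      nlinarith [mul_nonneg (show 0 ≤ S - 15 / 16 by linarith) (show 0 ≤ 1 - S by linarith)]
    refine ⟨by linarith, fun _ => by linarith, fun h => by omega⟩
  · have hl3 : l = 3 := by rw [hld, hlen]; norm_num
    have hS1 : S ≤ 3 / 2 := by linarith
    have b1 : 4 / 5 * S ≤ g1 := by
      apply key
      rw [hl3]
      nlinarith [mul_nonneg (show 0 ≤ S - 15 / 16 by linarith) (show 0 ≤ 3 / 2 - S by linarith),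
        mul_nonneg (mul_nonneg (show 0 ≤ S - 15 / 16 by linarith) (show 0 ≤ 3 / 2 - S by linarith)) (show 0 ≤ S by linarith)]
    have b2 : S / 4 + 2 / 5 ≤ g1 := by
      apply key
      rw [hl3]
      nlinarith [mul_nonneg (show 0 ≤ S - 15 / 16 by linarith) (show 0 ≤ 3 / 2 - S by linarith),
        mul_nonneg (mul_nonneg (show 0 ≤ S - 15 / 16 by linarith) (show 0 ≤ 3 / 2 - S by linarith)) (show 0 ≤ S by linarith)]
    refine ⟨b1, fun _ => b2, fun h => by omega⟩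
  · have hl4 : 4 ≤ l := by rw [hld]; exact_mod_cast hlen
    rcases le_or_gt (7 / 5) S with hS7 | hS7
    · have := hbig hS7
      refine ⟨by linarith, fun h => by omega, fun _ => by linarith⟩
    · have b : 3 / 8 * (S + 7 / 4) + 9 / 512 * (S + 3) ≤ g1 := by
        have hp' := (pow2_ge' (l - 2 * S)).trans h6
        have la := Real.log_two_gt_d9
        have lb := Real.log_two_lt_d9
        set lam := Real.log 2
        have h1 : 4 * (1 + lam * (l - 2 * S - 2)) * S ^ 2 ≤ g0 * S ^ 2 :=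
          mul_le_mul_of_nonneg_right hp' (sq_nonneg S)
        have h3 : (3 / 8 * (S + 7 / 4) + 9 / 512 * (S + 3)) * (l - S) ≤ g1 * (l - S) := by
          refine le_trans ?_ (h1.trans ht)
          -- slope in l
          have s1 : 0 ≤ (l - 4) * (4 * lam * S ^ 2 - (3 / 8 * (S + 7 / 4) + 9 / 512 * (S + 3))) := by
            apply mul_nonneg (by linarith)
            nlinarith [mul_nonneg (show 0 ≤ S - 15 / 16 by linarith) (show 0 ≤ S - 15 / 16 by linarith),
              mul_nonneg (show 0 ≤ lam - 0.6931 by linarith) (sq_nonneg S)]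
          have s2 : (3 / 8 * (S + 7 / 4) + 9 / 512 * (S + 3)) * (4 - S) ≤ 4 * (1 + lam * (2 - 2 * S)) * S ^ 2 := by
            have s3 : 4 * (1 + 0.6932 * (2 - 2 * S) - 0.0002) * S ^ 2 ≤ 4 * (1 + lam * (2 - 2 * S)) * S ^ 2 := by
              apply mul_le_mul_of_nonneg_right _ (sq_nonneg S)
              nlinarith
            refine le_trans ?_ s3
            nlinarith [mul_nonneg (show 0 ≤ S - 15 / 16 by linarith) (show 0 ≤ 7 / 5 - S by linarith),
              mul_nonneg (mul_nonneg (show 0 ≤ S - 15 / 16 by linarith) (show 0 ≤ 7 / 5 - S by linarith)) (show 0 ≤ S by linarith)]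
          nlinarith
        exact le_of_mul_le_mul_right h3 hl
      refine ⟨by linarith, fun h => by omega, fun _ => b⟩

/-- level 1, first step -/
lemma stepA {S p t β w : ℝ} (hS : 0 ≤ S) (hp0 : 0 ≤ p) (hpt : 2 * p ≤ t) (hb : t + β ≤ 1 / 8)
    (hw : w ≤ 1 / 4) :
    (3 * β + t + w - p) * (S + p - t - 2 * β + 2) ≤ (3 / 8 - 5 * p + w) * (S + 7 / 4 + 3 * p) := by
  have hd : 0 ≤ 1 / 8 - t - β := by linarith
  have he : 0 ≤ t - 2 * p := by linarith
  set d := 1 / 8 - t - β with hdd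
  set e := t - 2 * p with hee
  have e1 : 3 * β + t + w - p = (3 / 8 - 5 * p + w) - (2 * e + 3 * d) := by rw [hdd, hee]; ring
  have e2 : S + p - t - 2 * β + 2 = (S + 7 / 4 + 3 * p) + (e + 2 * d) := by rw [hdd, hee]; ring
  rw [e1, e2]
  have k1 : 0 ≤ (S + 7 / 4 + 3 * p - (3 / 8 - 5 * p + w)) * (e + 2 * d) :=
    mul_nonneg (by linarith) (by linarith)
  have k2 : 0 ≤ (S + 7 / 4 + 3 * p) * (e + d) := mul_nonneg (by linarith) (by linarith)
  have k3 : 0 ≤ (2 * e + 3 * d) * (e + 2 * d) := mul_nonneg (by linarith) (by linarith)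
  nlinarith

/-- level 1, `l ≥ 4` -/
lemma n1_ge4 {S p t β w : ℝ} (hS : 0 ≤ S) (hp0 : 0 ≤ p) (hpt : 2 * p ≤ t) (hβ0 : 0 ≤ β)
    (hb : t + β ≤ 1 / 8) (hpw : 2 * p ≤ w) (hw : w ≤ 1 / 16) :
    p * ((3 * β + t + w - p) * (S + p - t - 2 * β + 2)
      + 2 * β * (t + w - p) * (S + p - t - 2 * β + 3))
      ≤ (w - p) * (3 / 8 * (S + 7 / 4) + 9 / 512 * (S + 3)) := by
  have hA := stepA hS hp0 hpt hb (show w ≤ 1 / 4 by linarith)
  have h1 : p * ((3 / 8 - 5 * p + w) * (S + 7 / 4 + 3 * p)) ≤ (w - p) * (3 / 8 * (S + 7 / 4)) := by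
    have he : 0 ≤ w - 2 * p := by linarith
    have hT : 0 ≤ S + 7 / 4 := by linarith
    have k1 : 0 ≤ (S + 7 / 4) * ((w - 2 * p) * (3 / 8 - p)) := mul_nonneg hT (mul_nonneg he (by linarith))
    have k2 : 0 ≤ p ^ 2 * (S * 3) := by positivity
    have k3 : 0 ≤ p ^ 2 * (3 * (7 / 4) - 3 * (3 / 8 - 5 * p + w)) := mul_nonneg (sq_nonneg p) (by linarith)
    nlinarith
  have hq1 : 2 * β * (t + w - p) ≤ 9 / 512 := by
    have ht0 : 0 ≤ t := by linarith
    have : 2 * β * (t + w - p) ≤ (1 / 4 - 2 * t) * (t + w) := by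
      apply mul_le_mul (by linarith) (by linarith) (by linarith) (by linarith)
    have : (1 / 4 - 2 * t) * (t + w) ≤ (1 / 4 - 2 * t) * (t + 1 / 16) :=
      mul_le_mul_of_nonneg_left (by linarith) (by linarith)
    nlinarith [sq_nonneg (t - 1 / 32)]
  have h2 : p * (2 * β * (t + w - p) * (S + p - t - 2 * β + 3)) ≤ (w - p) * (9 / 512 * (S + 3)) := by
    have q0 : 0 ≤ 2 * β * (t + w - p) := mul_nonneg (by linarith) (by linarith)
    apply mul_le_mul (by linarith) _ (mul_nonneg q0 (by linarith)) (by linarith)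
    exact mul_le_mul hq1 (by linarith) (by linarith) (by norm_num)
  have h3 : p * ((3 * β + t + w - p) * (S + p - t - 2 * β + 2))
      ≤ p * ((3 / 8 - 5 * p + w) * (S + 7 / 4 + 3 * p)) := mul_le_mul_of_nonneg_left hA hp0
  linarith [show p * ((3 * β + t + w - p) * (S + p - t - 2 * β + 2)
      + 2 * β * (t + w - p) * (S + p - t - 2 * β + 3))
      = p * ((3 * β + t + w - p) * (S + p - t - 2 * β + 2))
        + p * (2 * β * (t + w - p) * (S + p - t - 2 * β + 3)) by ring]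

/-- level 1, `l = 2, 3` -/
lemma n1_le3 {S p t β w : ℝ} (hS : 0 ≤ S) (hp0 : 0 ≤ p) (hpt : 2 * p ≤ t) (hβ0 : 0 ≤ β)
    (hb : t + β ≤ 1 / 8) (hw : w = 1 / 8 ∨ w = 1 / 4) :
    p * ((3 * β + t + w - p) * (S + p - t - 2 * β + 2)
      + 2 * β * (t + w - p) * (S + p - t - 2 * β + 3))
      ≤ (w - p) * (S / 4 + 2 / 5) := by
  have hw4 : w ≤ 1 / 4 := by rcases hw with h | h <;> linarith
  have hw8 : 1 / 8 ≤ w := by rcases hw with h | h <;> linarith
  have hA := stepA hS hp0 hpt hb hw4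
  have hp16 : p ≤ 1 / 16 := by linarith
  have ht0 : 0 ≤ t := by linarith
  have hq1 : 2 * β * (t + w - p) ≤ (1 / 4 - 4 * p) * (w + p) := by
    have h1 : 2 * β * (t + w - p) ≤ (1 / 4 - 2 * t) * (t + w - p) := by
      apply mul_le_mul_of_nonneg_right (by linarith) (by linarith)
    have he : 0 ≤ t - 2 * p := by linarith
    nlinarith [mul_nonneg he (show 0 ≤ 4 * t + 4 * p + 2 * w - 1 / 4 - 0 by linarith), mul_nonneg he hp0,
      mul_nonneg he ht0]
  have q0 : 0 ≤ 2 * β * (t + w - p) := mul_nonneg (by linarith) (by linarith)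
  have h2 : 2 * β * (t + w - p) * (S + p - t - 2 * β + 3) ≤ (1 / 4 - 4 * p) * (w + p) * (S + 3) :=
    mul_le_mul hq1 (by linarith) (by linarith) (mul_nonneg (by linarith) (by linarith))
  have h3 : p * ((3 * β + t + w - p) * (S + p - t - 2 * β + 2)
      + 2 * β * (t + w - p) * (S + p - t - 2 * β + 3)) ≤
      p * ((3 / 8 - 5 * p + w) * (S + 7 / 4 + 3 * p) + (1 / 4 - 4 * p) * (w + p) * (S + 3)) :=
    mul_le_mul_of_nonneg_left (add_le_add hA h2) hp0
  refine h3.trans ?_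
  have hu : 0 ≤ 1 / 16 - p := by linarith
  rcases hw with rfl | rfl
  · have c1 : 0 ≤ (1 / 8 - p) / 4 - p * ((1 / 2 - 5 * p) + (1 / 4 - 4 * p) * (1 / 8 + p)) := by
      nlinarith [mul_nonneg hu hp0, mul_nonneg (mul_nonneg hu hp0) hp0, mul_nonneg hu hu,
        mul_nonneg (mul_nonneg hp0 hp0) hp0]
    have c0 : 0 ≤ (1 / 8 - p) * (2 / 5) - p * ((1 / 2 - 5 * p) * (7 / 4 + 3 * p)
        + 3 * (1 / 4 - 4 * p) * (1 / 8 + p)) := by
      nlinarith [mul_nonneg hu hp0, mul_nonneg (mul_nonneg hu hp0) hp0, mul_nonneg hu hu,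
        mul_nonneg (mul_nonneg hp0 hp0) hp0]
    nlinarith [mul_nonneg hS c1]
  · have c1 : 0 ≤ (1 / 4 - p) / 4 - p * ((5 / 8 - 5 * p) + (1 / 4 - 4 * p) * (1 / 4 + p)) := by
      nlinarith [mul_nonneg hu hp0, mul_nonneg (mul_nonneg hu hp0) hp0, mul_nonneg hu hu,
        mul_nonneg (mul_nonneg hp0 hp0) hp0]
    have c0 : 0 ≤ (1 / 4 - p) * (2 / 5) - p * ((5 / 8 - 5 * p) * (7 / 4 + 3 * p)
        + 3 * (1 / 4 - 4 * p) * (1 / 4 + p)) := by
      nlinarith [mul_nonneg hu hp0, mul_nonneg (mul_nonneg hu hp0) hp0, mul_nonneg hu hu,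
        mul_nonneg (mul_nonneg hp0 hp0) hp0]
    nlinarith [mul_nonneg hS c1]

lemma eg_mul_ge {F K : ℝ⟦X⟧} (hF : NN F) (hK : NN K) (h0 : 1 ≤ eg K 0) (n : ℕ) :
    eg F n ≤ eg (F * K) n := by
  rw [eg_mul, sum_range_succ]
  have h1 : 0 ≤ ∑ k ∈ range n, ((n.choose k : ℕ) : ℝ) * (eg F k * eg K (n - k)) :=
    sum_nonneg (fun k _ => mul_nonneg (Nat.cast_nonneg _) (mul_nonneg (eg_nonneg hF _) (eg_nonneg hK _)))
  rw [Nat.choose_self, Nat.sub_self, Nat.cast_one, one_mul]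
  have h2 := eg_nonneg hF n
  nlinarith

/-- the transform of the rest -/
lemma NN_rest (L : List ℝ) (h : ∀ s ∈ L, 0 ≤ s ∧ s ≤ 1 / 2) (p t β w : ℝ) (hw : w = (1 / 2) ^ L.length)
    (hp0 : 0 ≤ p) (hpt : 2 * p ≤ t) (hβ0 : 0 ≤ β) (hb : t + β ≤ 1 / 8) (hpw : 2 * p ≤ w)
    (hS : 1 ≤ L.sum + p) :
    NN (C (w - p) * (GG L * (kc (-(2 * β)) * kc (-(t - p))))
      + C p * (C (3 * β + t + w - p) * Y2 (L.sum + p - t - 2 * β)
        - C (2 * β * (t + w - p)) * Y3 (L.sum + p - t - 2 * β))) := by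
  apply NN_of_eg
  intro n
  rw [eg_add, eg_smul, eg_smul, eg_sub, eg_smul, eg_smul]
  set a := L.sum + p - t - 2 * β with ha
  have ht0 : 0 ≤ t := by linarith
  have hp16 : p ≤ 1 / 16 := by linarith
  have hS15 : 15 / 16 ≤ L.sum := by linarith
  have haS : a ≤ L.sum := by rw [ha]; linarith
  have ha34 : 3 / 4 ≤ a := by rw [ha]; linarith
  have hNG := NN_GG L h
  have hNK : NN (kc (-(2 * β)) * kc (-(t - p))) := (NN.kc (by linarith)).mul (NN.kc (by linarith))
  have hK0 : 1 ≤ eg (kc (-(2 * β)) * kc (-(t - p))) 0 := by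
    unfold eg
    rw [coeff_zero_eq_constantCoeff_apply, map_mul, ← coeff_zero_eq_constantCoeff_apply,
      ← coeff_zero_eq_constantCoeff_apply, coeff_kc_zero, coeff_kc_zero]
    simp
    nlinarith [mul_nonneg hβ0 (show 0 ≤ t - p by linarith)]
  have hge := eg_mul_ge hNG hNK hK0 n
  set H := eg (GG L * (kc (-(2 * β)) * kc (-(t - p)))) n
  have hlen : L.length = 2 ∨ L.length = 3 ∨ 4 ≤ L.length := by
    have h2 := sum_le_half L h
    have : (1 : ℝ) < (L.length : ℝ) := by linarith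
    have : 1 < L.length := by exact_mod_cast this
    omega
  have hw4 : w ≤ 1 / 4 := by
    rw [hw, show (1 / 4 : ℝ) = (1 / 2) ^ 2 by norm_num]
    exact pow_le_pow_of_le_one (by norm_num) (by norm_num) (by omega)
  have hw0 : 0 < w := by rw [hw]; positivity
  have hwp : 0 ≤ w - p := by linarith
  set q0 := 3 * β + t + w - p with hq0
  set q1 := 2 * β * (t + w - p) with hq1
  have q0n : 0 ≤ q0 := by rw [hq0]; linarith
  have q1n : 0 ≤ q1 := mul_nonneg (by linarith) (by linarith)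
  have q0u : q0 ≤ 5 / 8 := by rw [hq0]; linarith
  have q1u : q1 ≤ 1 / 16 := by
    have h1 : q1 ≤ (1 / 4 - 2 * t) * (t + 1 / 4) :=
      mul_le_mul (by linarith) (by linarith) (by linarith) (by linarith)
    nlinarith
  obtain ⟨g45, g3, g4⟩ := G1_bound L h hS15
  -- it suffices to bound the bad part
  have suff : -(q0 * eg (Y2 a) n - q1 * eg (Y3 a) n) ≤ eg (GG L) n → 2 ≤ n →
      0 ≤ (w - p) * H + p * (q0 * eg (Y2 a) n - q1 * eg (Y3 a) n) := by
    intro hb2 _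
    have k0 := eg_nonneg hNG n
    have k1 : p * eg (GG L) n ≤ (w - p) * H := mul_le_mul (by linarith) hge k0 hwp
    have k2 : p * -(q0 * eg (Y2 a) n - q1 * eg (Y3 a) n) ≤ p * eg (GG L) n :=
      mul_le_mul_of_nonneg_left hb2 hp0
    linarith
  obtain ⟨_, _, _, hc2⟩ := c2 L h
  have ha0 : 0 ≤ a := by linarith
  rcases (show n = 0 ∨ n = 1 ∨ n = 2 ∨ n = 3 ∨ 4 ≤ n by omega) with rfl | rfl | rfl | rfl | hn
  · rw [eg_Y2_zero, eg_Y3_zero]
    have k0 := eg_nonneg hNG 0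
    have k1 : 0 ≤ (w - p) * H := mul_nonneg hwp (k0.trans hge)
    have k2 : 0 ≤ p * (q0 * 1 - q1 * -1) := mul_nonneg hp0 (by linarith)
    linarith
  · rw [eg_Y2_one, eg_Y3_one]
    have k1 : (w - p) * eg (GG L) 1 ≤ (w - p) * H := mul_le_mul_of_nonneg_left hge hwp
    have hS0 : 0 ≤ L.sum := by linarith
    have k2 : p * (q0 * (a + 2) + q1 * (a + 3)) ≤ (w - p) * eg (GG L) 1 := by
      rcases hlen with hl | hl | hl
      · have := n1_le3 hS0 hp0 hpt hβ0 hb (w := w) (Or.inr (by rw [hw, hl]; norm_num))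
        exact this.trans (mul_le_mul_of_nonneg_left (g3 (by omega)) hwp)
      · have := n1_le3 hS0 hp0 hpt hβ0 hb (w := w) (Or.inl (by rw [hw, hl]; norm_num))
        exact this.trans (mul_le_mul_of_nonneg_left (g3 (by omega)) hwp)
      · have hw16 : w ≤ 1 / 16 := by
          rw [hw, show (1 / 16 : ℝ) = (1 / 2) ^ 4 by norm_num]
          exact pow_le_pow_of_le_one (by norm_num) (by norm_num) hl
        have := n1_ge4 hS0 hp0 hpt hβ0 hb hpw hw16
        exact this.trans (mul_le_mul_of_nonneg_left (g4 hl) hwp)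
    linarith [show p * (q0 * -(a + 2) - q1 * (a + 3)) = -(p * (q0 * (a + 2) + q1 * (a + 3))) by ring]
  · apply suff _ (le_refl 2)
    rw [eg_Y2_two, eg_Y3_two]
    have k1 : 0 ≤ q0 * (a ^ 2 + 2 * a - 2) := mul_nonneg q0n (by nlinarith)
    have k2 : 0 ≤ q1 * (a * (a + 4)) := mul_nonneg q1n (mul_nonneg ha0 (by linarith))
    have k3 := eg_nonneg hNG 2
    linarith [show -(q0 * (a ^ 2 + 2 * a - 2) - q1 * -(a * (a + 4)))
      = -(q0 * (a ^ 2 + 2 * a - 2)) - q1 * (a * (a + 4)) by ring]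
  · apply suff _ (by norm_num)
    rw [eg_Y2_three, eg_Y3_three]
    have k3 : a ^ 3 ≤ eg (GG L) 3 := (pow_shift 3 ha0 haS).trans (hc2 3 (by norm_num))
    have a3 : 0 ≤ a ^ 3 := by positivity
    have k1 : q0 * (a ^ 3 - 9 * a + 6) ≤ q0 * a ^ 3 := mul_le_mul_of_nonneg_left (by linarith) q0n
    have k2 : q1 * (a ^ 3 + 3 * a ^ 2 - 9 * a - 3) ≤ q1 * (2 * a ^ 3) := by
      apply mul_le_mul_of_nonneg_left _ q1n
      nlinarith [mul_nonneg ha0 (sq_nonneg (2 * a - 3))]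
    have k4 : (q0 + 2 * q1) * a ^ 3 ≤ 1 * a ^ 3 := mul_le_mul_of_nonneg_right (by linarith) a3
    linarith [show -(q0 * (9 * a - 6 - a ^ 3) - q1 * (a ^ 3 + 3 * a ^ 2 - 9 * a - 3))
      = q0 * (a ^ 3 - 9 * a + 6) + q1 * (a ^ 3 + 3 * a ^ 2 - 9 * a - 3) by ring,
      show (q0 + 2 * q1) * a ^ 3 = q0 * a ^ 3 + q1 * (2 * a ^ 3) by ring]
  · apply suff _ (by omega)
    obtain ⟨m, rfl⟩ : ∃ m, n = m + 4 := ⟨n - 4, by omega⟩
    have h16 : 2 < a → w ≤ 1 / 16 := by
      intro h2a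
      have h2 := sum_le_half L h
      have h4 : (4 : ℝ) < (L.length : ℝ) := by linarith
      have h4' : 4 ≤ L.length := by
        have : 4 < L.length := by exact_mod_cast h4
        omega
      rw [hw, show (1 / 16 : ℝ) = (1 / 2) ^ 4 by norm_num]
      exact pow_le_pow_of_le_one (by norm_num) (by norm_num) h4'
    apply bad_ge (G := eg (GG L) 0 * (L.map (fun s => s ^ 2)).sum) m ha34 q0n q1n q1u (by linarith)
    · intro h2a; have := h16 h2a; rw [hq0]; linarith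
    · intro h2a
      have hw16 := h16 h2a
      have h1 : q1 ≤ (1 / 4 - 2 * t) * (t + w) := by
        apply mul_le_mul (by linarith) (by linarith) (by linarith) (by linarith)
      have h2 : (1 / 4 - 2 * t) * (t + w) ≤ (1 / 4 - 2 * t) * (t + 1 / 16) :=
        mul_le_mul_of_nonneg_left (by linarith) (by linarith)
      nlinarith [sq_nonneg (t - 1 / 32)]
    · have := c5 L h
      linarith
    · exact (pow_shift _ ha0 haS).trans (hc2 _ (by omega))
    · have := c3 L h (m + 2)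
      push_cast at this
      rw [show (m : ℝ) + 2 + 3 / 2 = m + 7 / 2 by ring] at this
      exact this

theorem Z1_large (as : List ℝ) (has : ∀ s ∈ as, 0 ≤ s ∧ s ≤ 1 / 2) (p t β : ℝ)
    (hp0 : 0 ≤ p) (hpt : 2 * p ≤ t) (hβ0 : 0 ≤ β) (hb : t + β ≤ 1 / 8)
    (hpw : 2 * p ≤ (1 / 2) ^ as.length) (hS : 1 ≤ as.sum + p)
    (SB : InW (as.sum + (1 / 2) ^ as.length) (prodC as + C ((1 / 2) ^ as.length) * (X - 1))) :
    InW (as.sum + p - t - 2 * β) (Z1 as p t β) := by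
  set w : ℝ := (1 / 2) ^ as.length with hw
  have hw0 : 0 < w := by rw [hw]; positivity
  have ht0 : 0 ≤ t := by linarith
  have hN := NN_rest as has p t β w hw hp0 hpt hβ0 hb hpw hS
  set a := as.sum + p - t - 2 * β with ha
  obtain ⟨q0, hq0⟩ : ∃ q : ℝ, q = 3 * β + t + w - p := ⟨_, rfl⟩
  obtain ⟨q1, hq1⟩ : ∃ q : ℝ, q = 2 * β * (t + w - p) := ⟨_, rfl⟩
  obtain ⟨v, hv⟩ : ∃ q : ℝ, q = w - p := ⟨_, rfl⟩
  obtain ⟨u, hu⟩ : ∃ q : ℝ, q = 1 - p / w := ⟨_, rfl⟩
  obtain ⟨b2, hb2⟩ : ∃ q : ℝ, q = -(2 * β) := ⟨_, rfl⟩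
  obtain ⟨tp, htp⟩ : ∃ q : ℝ, q = -(t - p) := ⟨_, rfl⟩
  rw [← hq0, ← hq1, ← hv, ← hb2, ← htp] at hN
  have hrest : InW a (C u * (prodC as * ((1 + C b2 * (X - 1)) * (1 + C tp * (X - 1))))
      + C p * ((X - 1) ^ 2 * (C q0 - C q1 * (X - 1)))) := by
    refine InW.intro hN ?_
    have hS2 : S (C v * (GG as * (kc b2 * kc tp)) + C p * (C q0 * Y2 a - C q1 * Y3 a))
        = C v * (S (GG as) * (((1 + C b2 * (X - 1)) * Ex (-b2)) * ((1 + C tp * (X - 1)) * Ex (-tp))))
          + C p * (C q0 * ((X - 1) ^ 2 * Ex (-a)) - C q1 * ((X - 1) ^ 3 * Ex (-a))) := by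
      rw [map_add, map_mul, map_mul, map_mul, S_kc, S_kc, map_mul S (C p), map_sub, map_mul S (C q0),
        map_mul S (C q1), S_Y2, S_Y3, S_C, S_C, S_C, S_C]
    rw [hS2]
    have e1 := S_GG as
    rw [← hw] at e1
    have e2 : Ex a * Ex (-a) = 1 := Ex_mul_neg a
    have e3 : Ex a * Ex (-as.sum) * Ex (-b2) * Ex (-tp) = 1 := by
      rw [← Ex_add, ← Ex_add, ← Ex_add, show a + -as.sum + -b2 + -tp = 0 by
        rw [ha, hb2, htp]; ring, Ex_zero]
    have e4 : C u * C w = (C v : ℝ⟦X⟧) := by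
      rw [← map_mul]; congr 1; rw [hu, hv]; field_simp
    rw [← e4]
    linear_combination
      -(C u * (prodC as * ((1 + C b2 * (X - 1)) * (1 + C tp * (X - 1))))) * e3
      - (C p * ((X - 1) ^ 2 * (C q0 - C q1 * (X - 1)))) * e2
      - (C u * Ex a * ((1 + C b2 * (X - 1)) * Ex (-b2) * ((1 + C tp * (X - 1)) * Ex (-tp)))) * e1
  have hfirst : InW a (C (p / w) * (((1 + C (-(2 * β)) * (X - 1)) * (1 + C (-(t + w - p)) * (X - 1)))
      * (prodC as + C w * (X - 1)))) := by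
    apply InW.smul (by positivity)
    refine (((InW.coin (s := -(2 * β)) (by linarith)).mul (InW.coin (s := -(t + w - p))
      (by linarith))).mul SB).congr (by rw [ha]; ring) rfl
  refine (hfirst.add hrest).congr rfl ?_
  unfold Z1
  have e5 : C (p / w) * C w = (C p : ℝ⟦X⟧) := by
    rw [← map_mul]; congr 1; field_simp
  rw [hq0, hq1, hu, hb2, htp]
  simp only [map_sub, map_add, map_mul, map_one, map_neg, map_ofNat]
  linear_combination ((X - 1) * (1 - 2 * C β * (X - 1)) * (1 - (C t + C w - C p) * (X - 1))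
    - (1 - 2 * C β * (X - 1)) * prodC as * (X - 1)) * e5

/-- **`Z` for one star** -/
theorem Z1_one (as : List ℝ) (has : ∀ s ∈ as, 0 ≤ s ∧ s ≤ 1 / 2) (p t β : ℝ)
    (hp0 : 0 ≤ p) (hpt : 2 * p ≤ t) (hβ : β = 0 ∨ t ≤ β) (hb : t + β ≤ 1 / 8)
    (hpw : 2 * p ≤ (1 / 2) ^ as.length)
    (SB : InW (as.sum + (1 / 2) ^ as.length) (prodC as + C ((1 / 2) ^ as.length) * (X - 1))) :
    InW (as.sum + p - t - 2 * β) (Z1 as p t β) := by
  have hβ0 : 0 ≤ β := by rcases hβ with h | h <;> linarith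
  rcases le_or_gt (as.sum + p) 1 with hS | hS
  · apply Z1_small as has p t β hp0 hpt hβ hb hS
    have : (1 / 2 : ℝ) ^ as.length ≤ (as.map (fun s => 1 - s)).prod := by
      clear SB hpw hS
      induction as with
      | nil => simp
      | cons a as ih =>
        rw [List.map_cons, List.prod_cons, List.length_cons, pow_succ, mul_comm]
        have := ih (fun s hs => has s (by simp [hs]))
        have h2 := (has a (by simp)).2
        exact mul_le_mul (by linarith) this (by positivity) (by linarith)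
    linarith
  · exact Z1_large as has p t β hp0 hpt hβ0 hb hpw hS.le SB

end Pool.Agent.Lib_helper83.SRC
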