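import Pool.Agent.Lib_helper83.SRC.C2

set_option autoImplicit false

/-! # `Z` for one star, small mean (`S + p ≤ 1`): the R-form -/

namespace Pool.Agent.Lib_helper83.SRC

open Finset PowerSeries Pool.Agent.Lib_helper36.SRC Pool.Agent.Lib_helper36.SRC.RT
  Pool.Agent.Lib_helper79.SRC

lemma C_two : (C (2 : ℝ) : ℝ⟦X⟧) = 2 := map_ofNat C 2

/-- The polynomial `Z` for one star with leaves `as` and centre `p`. -/
noncomputable def Z1 (as : List ℝ) (p t β : ℝ) : ℝ⟦X⟧ :=
  prodC as * ((1 + C (-t) * (X - 1)) * (1 + C (-(2 * β)) * (X - 1)))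
    + C p * ((X - 1) * (1 + C β * (X - 1)))

/-- `Z / prod` R-form -/
noncomputable def RZ1 (as : List ℝ) (p t β : ℝ) : ℝ⟦X⟧ :=
  C (t ^ 2) * (prodC as * (1 + C (-(2 * β)) * (X - 1)))
  + C (4 * β ^ 2) * (prodC as * (1 + C (-t) * (X - 1)))
  + ((1 + C (-t) * (X - 1)) * (1 + C (-(2 * β)) * (X - 1))) * sqC as
  + C p * (((1 + C (-t) * (X - 1)) * (1 + C (-(2 * β)) * (X - 1))) * quC as)
  + C p * (C (as.sum + p - 2 * t - 6 * β) + C (β * (as.sum + p + t - 2 * β)) * (X - 1))

lemma RZ1_eq (as : List ℝ) (p t β : ℝ) :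
    d⁄dX ℝ (Z1 as p t β) - C (as.sum + p - t - 2 * β) * Z1 as p t β = (1 - X) * RZ1 as p t β := by
  have h1 := deriv_prodC as
  have h2 := prodC_sub_one as
  have hC : ∀ (t : ℝ) (G : ℝ⟦X⟧), (d⁄dX ℝ) (C t * G) = C t * (d⁄dX ℝ) G := by
    intro t G
    rw [Derivation.leibniz, derivative_C, smul_zero, add_zero, smul_eq_mul]
  have hlin : ∀ s : ℝ, (d⁄dX ℝ) (1 + C s * (X - 1)) = (C s : ℝ⟦X⟧) := by
    intro s
    rw [map_add, hC, map_sub, derivative_X, Derivation.map_one_eq_zero]; ring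
  have hX : (d⁄dX ℝ) (X - 1) = (1 : ℝ⟦X⟧) := by
    rw [map_sub, derivative_X, Derivation.map_one_eq_zero]; ring
  unfold Z1 RZ1
  rw [map_add, hC, Derivation.leibniz, Derivation.leibniz, hlin, hlin, Derivation.leibniz, hlin, hX]
  simp only [smul_eq_mul, map_add, map_sub, map_mul, map_pow, map_neg, map_ofNat, mul_one]
  linear_combination ((1 - C t * (X - 1)) * (1 - 2 * C β * (X - 1))) * h1
    - C p * ((1 - C t * (X - 1)) * (1 - 2 * C β * (X - 1))) * h2

/-- `(1 + 1/c) - x = (1/c)(1 - c y)` -/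
lemma coin_split (t c : ℝ) (hc : 0 < c) :
    (1 + C (-t) * (X - 1) : ℝ⟦X⟧) = C (1 - t / c) * 1 + C (t / c) * (1 + C (-c) * (X - 1)) := by
  have h : C (t / c) * C c = (C t : ℝ⟦X⟧) := by
    rw [← map_mul]; congr 1; field_simp
  simp only [map_sub, map_neg, map_one]
  linear_combination (X - 1) * h

lemma prodC_sub_const (as : List ℝ) (h : ∀ s ∈ as, 0 ≤ s ∧ s ≤ 1) :
    InW 0 (prodC as - C ((as.map (fun s => 1 - s)).prod)) := by
  induction as with
  | nil => rw [prodC_nil]; simp; exact InW.zero _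
  | cons a as ih =>
    obtain ⟨ha0, ha1⟩ := h a (by simp)
    have ih' := ih (fun t ht => h t (by simp [ht]))
    have h1 := InW.smul (c := 1 - a) (by linarith) ih'
    have hE : InW 0 (prodC as) := (inW_prodC as (fun s hs => (h s (by simp [hs])).2)).mono
      (List.sum_nonneg (fun s hs => (h s (by simp [hs])).1))
    have h2 := InW.smul (c := a) ha0 ((InW.X.mono (show (0 : ℝ) ≤ 1 by norm_num)).mul hE)
    rw [add_zero] at h2
    refine (h1.add h2).congr rfl ?_
    rw [prodC_cons, List.map_cons, List.prod_cons]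
    simp only [map_sub, map_mul, map_one]
    ring

/-- the real inequality, `β ≥ t` -/
lemma scalar_small {S p t β : ℝ} (hS0 : 0 ≤ S) (hS1 : S ≤ 1) (hp0 : 0 ≤ p) (hpt : 2 * p ≤ t)
    (htβ : t ≤ β) (hb : t + β ≤ 1 / 8) :
    p * (2 * t + 6 * β - S - p + β * (S + p + t - 2 * β)) ≤
      t ^ 2 * (1 - S - 2 * β) + 4 * β ^ 2 * (1 - S - t) ∨
      2 * t + 6 * β - S - p + β * (S + p + t - 2 * β) ≤ 0 := by
  by_cases hneg : 2 * t + 6 * β - S - p + β * (S + p + t - 2 * β) ≤ 0
  · exact Or.inr hneg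
  left
  rw [not_le] at hneg
  have ht0 : 0 ≤ t := by linarith
  have hβ0 : 0 ≤ β := by linarith
  have hk : 2 * t + 6 * β - S - p + β * (S + p + t - 2 * β) ≤ 2 * t + 6 * β - S + β * S := by
    have : β * (p + t - 2 * β) ≤ 0 := mul_nonpos_of_nonneg_of_nonpos hβ0 (by linarith)
    nlinarith
  have h1 : p * (2 * t + 6 * β - S - p + β * (S + p + t - 2 * β)) ≤
      t / 2 * (2 * t + 6 * β - S + β * S) := by
    apply mul_le_mul (by linarith) hk hneg.le (by linarith)
  refine h1.trans ?_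
  -- linear in S
  have f0 : 0 ≤ t ^ 2 * (1 - 2 * β) + 4 * β ^ 2 * (1 - t) - t / 2 * (2 * t + 6 * β) := by
    have e : t ^ 2 * (1 - 2 * β) + 4 * β ^ 2 * (1 - t) - t / 2 * (2 * t + 6 * β)
        = β * (4 * β * (1 - t) - 3 * t - 2 * t ^ 2) := by ring
    rw [e]
    apply mul_nonneg hβ0
    nlinarith [mul_nonneg (show (0 : ℝ) ≤ β - t by linarith) (show (0 : ℝ) ≤ 1 - t by linarith)]
  have f1 : 0 ≤ t ^ 2 * (-(2 * β)) + 4 * β ^ 2 * (-t) - t / 2 * (2 * t + 6 * β - 1 + β) := by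
    have e : t ^ 2 * (-(2 * β)) + 4 * β ^ 2 * (-t) - t / 2 * (2 * t + 6 * β - 1 + β)
        = t * (1 / 2 - t - 7 / 2 * β - 2 * t * β - 4 * β ^ 2) := by ring
    rw [e]
    apply mul_nonneg ht0
    nlinarith [mul_nonneg hβ0 ht0, mul_nonneg hβ0 (show (0 : ℝ) ≤ 1 / 8 - t - β by linarith)]
  have m0 := mul_nonneg (show (0 : ℝ) ≤ 1 - S by linarith) f0
  have m1 := mul_nonneg hS0 f1
  nlinarith

/-- the real inequality, `κ < 0` -/
lemma scalar_small' {S p t β : ℝ} (hS0 : 0 ≤ S) (hp0 : 0 ≤ p) (hpt : 2 * p ≤ t)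
    (htβ : t ≤ β) (hb : t + β ≤ 1 / 8) (hk : S + p + t < 2 * β) :
    p * (2 * t + 6 * β - S - p + β * (2 * β - S - p - t)) ≤
      t ^ 2 * (1 - S - 2 * β) + 4 * β ^ 2 * (1 - S - t) := by
  have ht0 : 0 ≤ t := by linarith
  have hβ0 : 0 ≤ β := by linarith
  have h0 : 0 ≤ 2 * t + 6 * β - S - p + β * (2 * β - S - p - t) := by
    have : 0 ≤ β * (2 * β - S - p - t) := mul_nonneg hβ0 (by linarith)
    linarith
  have h1 : p * (2 * t + 6 * β - S - p + β * (2 * β - S - p - t)) ≤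
      t / 2 * (2 * t + 6 * β - S + β * (2 * β)) := by
    apply mul_le_mul (by linarith) _ h0 (by linarith)
    have : β * (2 * β - S - p - t) ≤ β * (2 * β) := mul_le_mul_of_nonneg_left (by linarith) hβ0
    linarith
  refine h1.trans ?_
  have hS : S ≤ 2 * β := by linarith
  have e : t ^ 2 * (1 - S - 2 * β) + 4 * β ^ 2 * (1 - S - t) - t / 2 * (2 * t + 6 * β - S + β * (2 * β))
      = S * (t / 2 - t ^ 2 - 4 * β ^ 2) + β * (4 * β * (1 - t) - 3 * t - 2 * t ^ 2 - t * β) := by ring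
  have hA : 0 ≤ 4 * β * (1 - t) - 3 * t - 2 * t ^ 2 - t * β := by
    nlinarith [mul_nonneg (show (0 : ℝ) ≤ β - t by linarith) (show (0 : ℝ) ≤ 1 - t by linarith)]
  rcases le_or_gt 0 (t / 2 - t ^ 2 - 4 * β ^ 2) with h | h
  · have := mul_nonneg hS0 h
    have := mul_nonneg hβ0 hA
    linarith
  · -- S ≤ 2 β
    have h2 : 2 * β * (t / 2 - t ^ 2 - 4 * β ^ 2) ≤ S * (t / 2 - t ^ 2 - 4 * β ^ 2) := by nlinarith
    have h3 : 0 ≤ β * (2 * (t / 2 - t ^ 2 - 4 * β ^ 2) + (4 * β * (1 - t) - 3 * t - 2 * t ^ 2 - t * β)) := by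
      apply mul_nonneg hβ0
      nlinarith [mul_nonneg (show (0 : ℝ) ≤ β - t by linarith) (show (0 : ℝ) ≤ 1 - t by linarith),
        mul_nonneg hβ0 (show (0 : ℝ) ≤ 1 / 8 - t - β by linarith), mul_nonneg hβ0 ht0]
    linarith

/-- general step: `RZ1` is in the cone as soon as the constant is nonnegative -/
lemma inW_RZ1 (as : List ℝ) (has : ∀ s ∈ as, 0 ≤ s ∧ s ≤ 1 / 2) (p t β c E0 : ℝ)
    (hp0 : 0 ≤ p) (hp1 : p ≤ 1 / 2) (ht0 : 0 ≤ t) (hβ0 : 0 ≤ β) (hS : as.sum + p ≤ 1)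
    (hc : c = 1 - (as.sum + p - t - 2 * β)) (hc0 : 0 < c) (hct : t ≤ c) (hcβ : 2 * β ≤ c)
    (hE0 : E0 = (as.map (fun s => 1 - s)).prod)
    (Y : ℝ⟦X⟧) (k0 k1 : ℝ) (hk1 : 0 ≤ k1) (hY : InW (-c) Y)
    (hlast : C (as.sum + p - 2 * t - 6 * β) + C (β * (as.sum + p + t - 2 * β)) * (X - 1)
      = C k0 * 1 + C k1 * Y)
    (hK : 0 ≤ (t ^ 2 * (1 - 2 * β / c) + 4 * β ^ 2 * (1 - t / c)) * E0 + p * k0) :
    InW (-c) (RZ1 as p t β) := by
  have hS0 : 0 ≤ as.sum := List.sum_nonneg (fun s hs => (has s hs).1)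
  have has1 : ∀ s ∈ as, s ≤ 1 := fun s hs => by have := (has s hs).2; linarith
  have has01 : ∀ s ∈ as, 0 ≤ s ∧ s ≤ 1 := fun s hs => ⟨(has s hs).1, has1 s hs⟩
  have hE : InW 0 (prodC as) := (inW_prodC as has1).mono hS0
  have hP : InW (-t - 2 * β) ((1 + C (-t) * (X - 1)) * (1 + C (-(2 * β)) * (X - 1))) := by
    refine ((InW.coin (s := -t) (by linarith)).mul (InW.coin (s := -(2 * β)) (by linarith))).congr
      (by ring) rfl
  have hcE : InW (-c) (prodC as * (1 + C (-c) * (X - 1))) := by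
    refine (hE.mul (InW.coin (s := -c) (by linarith))).congr (by ring) rfl
  have h2b : 0 ≤ 1 - 2 * β / c := by
    rw [sub_nonneg, div_le_one hc0]; exact hcβ
  have htc : 0 ≤ 1 - t / c := by
    rw [sub_nonneg, div_le_one hc0]; exact hct
  have hu : C (2 * β / c) * C c = (2 * C β : ℝ⟦X⟧) := by
    rw [← map_mul, ← C_two, ← map_mul]; congr 1; field_simp
  have hv : C (t / c) * C c = (C t : ℝ⟦X⟧) := by
    rw [← map_mul]; congr 1; field_simp
  have a1 := InW.smul (c := t ^ 2 * (1 - 2 * β / c) + 4 * β ^ 2 * (1 - t / c)) (by positivity)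
    ((prodC_sub_const as has01).mono (show -c ≤ 0 by linarith))
  have a2 := InW.smul (c := t ^ 2 * (2 * β / c) + 4 * β ^ 2 * (t / c)) (by positivity) hcE
  have a3 : InW (-c) (((1 + C (-t) * (X - 1)) * (1 + C (-(2 * β)) * (X - 1))) * sqC as) := by
    refine (hP.mul (inW_sqC as (as.sum - 1 / 2) (fun s hs => ⟨has1 s hs, ?_⟩))).mono ?_
    · have := (has s hs).2; linarith
    · rw [hc]; linarith
  have a4 : InW (-c) (((1 + C (-t) * (X - 1)) * (1 + C (-(2 * β)) * (X - 1))) * quC as) := by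
    refine (hP.mul (inW_quC as 0 (le_refl _) has01)).mono ?_
    rw [hc]; linarith
  have a5 : InW (-c) (C ((t ^ 2 * (1 - 2 * β / c) + 4 * β ^ 2 * (1 - t / c)) * E0 + p * k0) * 1) :=
    (InW.one (by linarith)).smul hK
  have a6 := InW.smul (c := p * k1) (mul_nonneg hp0 hk1) hY
  have tot := ((((a1.add a2).add a3).add (a4.smul hp0)).add a5).add a6
  refine tot.congr rfl ?_
  unfold RZ1
  rw [hlast, ← hE0]
  simp only [map_add, map_sub, map_mul, map_pow, map_neg, map_ofNat, map_one]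
  linear_combination -(C t ^ 2 * prodC as * (X - 1)) * hu - (4 * C β ^ 2 * prodC as * (X - 1)) * hv

theorem Z1_small (as : List ℝ) (has : ∀ s ∈ as, 0 ≤ s ∧ s ≤ 1 / 2) (p t β : ℝ)
    (hp0 : 0 ≤ p) (hpt : 2 * p ≤ t) (hβ : β = 0 ∨ t ≤ β) (hb : t + β ≤ 1 / 8)
    (hS : as.sum + p ≤ 1) (h0 : p ≤ (as.map (fun s => 1 - s)).prod) :
    InW (as.sum + p - t - 2 * β) (Z1 as p t β) := by
  have ht0 : 0 ≤ t := by linarith
  have hβ0 : 0 ≤ β := by rcases hβ with h | h <;> linarith
  have hS0 : 0 ≤ as.sum := List.sum_nonneg (fun s hs => (has s hs).1)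
  have has01 : ∀ s ∈ as, 0 ≤ s ∧ s ≤ 1 := fun s hs => ⟨(has s hs).1, by have := (has s hs).2; linarith⟩
  obtain ⟨pr0, pr1, pr2⟩ := prod_ge as has01
  set E0 := (as.map (fun s => 1 - s)).prod with hE0
  set S := as.sum with hSdef
  set c := 1 - (S + p - t - 2 * β) with hc
  have hc1 : 1 - S ≤ c := by rw [hc]; linarith
  have hcσ : t + 2 * β ≤ c := by rw [hc]; linarith
  apply InW.of_deriv (R := RZ1 as p t β)
  · unfold Z1
    rw [map_add, map_mul, constCoeff_prodC, ← hE0]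
    simp
    nlinarith [mul_nonneg hβ0 ht0, mul_nonneg pr0 ht0, mul_nonneg pr0 hβ0,
      mul_nonneg pr0 (mul_nonneg hβ0 ht0), mul_nonneg hp0 hβ0]
  · have hmu : S + p - t - 2 * β - 1 = -c := by rw [hc]; ring
    rw [hmu]
    rcases eq_or_lt_of_le (show 0 ≤ c by linarith) with hc0 | hc0
    · -- c = 0: then t = β = 0, p = 0
      have t0 : t = 0 := by linarith
      have b0 : β = 0 := by linarith
      have p0 : p = 0 := by linarith
      subst t0; subst b0; subst p0
      have : RZ1 as 0 0 0 = sqC as := by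
        unfold RZ1; simp
      rw [this]
      apply inW_sqC
      intro s hs
      refine ⟨(has01 s hs).2, ?_⟩
      have := (has s hs).2
      linarith
    have hA : t ^ 2 * (1 - S - 2 * β) + 4 * β ^ 2 * (1 - S - t)
        ≤ (t ^ 2 * (1 - 2 * β / c) + 4 * β ^ 2 * (1 - t / c)) * E0 := by
      have h2b : 0 ≤ 1 - 2 * β / c := by rw [sub_nonneg, div_le_one hc0]; linarith
      have htc : 0 ≤ 1 - t / c := by rw [sub_nonneg, div_le_one hc0]; linarith
      have hS1 : (1 - S) / c ≤ 1 := by rw [div_le_one hc0]; exact hc1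
      have e1 : 1 - S - 2 * β ≤ (1 - 2 * β / c) * (1 - S) := by
        have : 2 * β / c * (1 - S) = 2 * β * ((1 - S) / c) := by ring
        nlinarith
      have e2 : 1 - S - t ≤ (1 - t / c) * (1 - S) := by
        have : t / c * (1 - S) = t * ((1 - S) / c) := by ring
        nlinarith
      have e3 : (t ^ 2 * (1 - 2 * β / c) + 4 * β ^ 2 * (1 - t / c)) * (1 - S)
          ≤ (t ^ 2 * (1 - 2 * β / c) + 4 * β ^ 2 * (1 - t / c)) * E0 :=
        mul_le_mul_of_nonneg_left pr1 (by positivity)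
      have e4 := mul_le_mul_of_nonneg_left e1 (sq_nonneg t)
      have e5 := mul_le_mul_of_nonneg_left e2 (show 0 ≤ 4 * β ^ 2 by positivity)
      nlinarith
    have hAE : 0 ≤ (t ^ 2 * (1 - 2 * β / c) + 4 * β ^ 2 * (1 - t / c)) * E0 := by
      have h2b : 0 ≤ 1 - 2 * β / c := by rw [sub_nonneg, div_le_one hc0]; linarith
      have htc : 0 ≤ 1 - t / c := by rw [sub_nonneg, div_le_one hc0]; linarith
      positivity
    rcases le_or_gt 0 (β * (S + p + t - 2 * β)) with hκ | hκ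
    · -- κ ≥ 0
      apply inW_RZ1 as has p t β c E0 hp0 (by linarith) ht0 hβ0 hS (by rw [hc]) hc0 (by linarith)
        (by linarith) hE0 X (S + p - 2 * t - 6 * β - β * (S + p + t - 2 * β))
        (β * (S + p + t - 2 * β)) hκ (InW.X.mono (by linarith))
      · rw [← hSdef]; simp only [map_add, map_sub, map_mul, map_ofNat]; ring
      · rcases hβ with hb0 | htβ
        · -- β = 0
          subst hb0
          rcases le_or_gt (2 * t) (S + p) with h | h
          · have : 0 ≤ p * (S + p - 2 * t - 6 * 0 - 0 * (S + p + t - 2 * 0)) :=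
              mul_nonneg hp0 (by linarith)
            linarith
          · have h3 : 0 ≤ S * (t - t ^ 2 - S / 4) := by
              apply mul_nonneg hS0
              nlinarith
            nlinarith [sq_nonneg (p - (t - S / 2))]
        · rcases scalar_small hS0 (by linarith) hp0 hpt htβ hb with h | h
          · nlinarith
          · have : 0 ≤ p * (S + p - 2 * t - 6 * β - β * (S + p + t - 2 * β)) :=
              mul_nonneg hp0 (by linarith)
            linarith
    · -- κ < 0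
      have hβp : 0 < β := by
        rcases eq_or_lt_of_le hβ0 with h | h
        · rw [← h] at hκ; simp at hκ
        · exact h
      have hlt : S + p + t - 2 * β < 0 := by
        by_contra hcon
        exact absurd (mul_nonneg hβ0 (not_lt.1 hcon)) (not_le.2 hκ)
      have htβ : t ≤ β := by rcases hβ with h | h <;> linarith
      have hc1' : 1 ≤ c := by rw [hc]; linarith
      set q := β * (2 * β - S - p - t) with hq
      have hq0 : 0 ≤ q := mul_nonneg hβ0 (by linarith)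
      have hqc : q / c ≤ q := div_le_self hq0 hc1'
      apply inW_RZ1 as has p t β c E0 hp0 (by linarith) ht0 hβ0 hS (by rw [hc]) hc0 (by linarith)
        (by linarith) hE0 (1 + C (-c) * (X - 1)) (S + p - 2 * t - 6 * β - q / c)
        (q / c) (by positivity) (InW.coin (by linarith))
      · have hv : C (q / c) * C c = (C q : ℝ⟦X⟧) := by
          rw [← map_mul]; congr 1; field_simp
        rw [← hSdef, show β * (S + p + t - 2 * β) = -q by rw [hq]; ring]
        simp only [map_add, map_sub, map_mul, map_ofNat, map_neg]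
        linear_combination (X - 1) * hv
      · have h := scalar_small' hS0 hp0 hpt htβ hb (by linarith)
        rw [← hq] at h
        have h2 : p * (q / c) ≤ p * q := mul_le_mul_of_nonneg_left hqc hp0
        nlinarith
  · exact RZ1_eq as p t β

end Pool.Agent.Lib_helper83.SRC
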